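import Pool.Agent.Lib_helper18.LDK.Abs

/-!
# LDK: common definitions

Class side: `R > 0`, `S = l R + E ≥ 0`, `l ≥ 0`, `E = v v* - w w*`, and `A₂ = S + R`,
`D₂ = S - R`. Other side: an arbitrary pair `(A, D)`, `P = A - D`, `K = A + D`, `B = P + l K`,
`N = K`; then `A ⊗ A₂ + D ⊗ D₂ = P ⊗ R + K ⊗ S = B ⊗ R + N ⊗ E`, and `A ⊗ A₂ - D ⊗ D₂` is the same
with `P` and `K` exchanged.
-/

set_option autoImplicit false

open scoped BigOperators ComplexOrder Kronecker MatrixOrder Topology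
open MeasureTheory Set Matrix Filter

namespace Pool.Agent.LDK

open Pool.Agent.RC

variable {ι κ : Type} [Fintype ι] [DecidableEq ι] [Fintype κ] [DecidableEq κ]

/-- `log det` of a positive definite matrix -/
noncomputable def ld (X : Matrix ι ι ℂ) : ℝ := trF Real.log X

/-- `log det (r + Z) - ½ log det (r + Z + W) - ½ log det (r + Z - W)` -/
noncomputable def LL (Z W : Matrix ι ι ℂ) (r : ℝ) : ℝ :=
  ld ((r : ℂ) • (1 : Matrix ι ι ℂ) + Z) -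
    (ld ((r : ℂ) • (1 : Matrix ι ι ℂ) + (Z + W)) + ld ((r : ℂ) • (1 : Matrix ι ι ℂ) + (Z - W))) / 2

/-- `½ Tr e^{-(x A + y D)/r} + ½ Tr e^{-(x A - y D)/r} - Tr e^{-x A/r}` -/
noncomputable def Ecb (A D : Matrix ι ι ℂ) (x y r : ℝ) : ℝ :=
  (trF (fun t => Real.exp (-(t / r))) ((x : ℂ) • A + (y : ℂ) • D) +
    trF (fun t => Real.exp (-(t / r))) ((x : ℂ) • A - (y : ℂ) • D)) / 2 -
    trF (fun t => Real.exp (-(t / r))) ((x : ℂ) • A)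

/-- a direction measure of the pair `(A₂, D₂)` -/
structure DirMeas (A₂ D₂ : Matrix κ κ ℂ) (η : Measure (ℝ × ℝ)) : Prop where
  sfin : SFinite η
  adm : ∀ᵐ p ∂η, |p.2| ≤ p.1
  le : ∀ (ι : Type) [Fintype ι] [DecidableEq ι] (A D : Matrix ι ι ℂ), IsPsdPair A D →
    ∀ r : ℝ, 0 < r → ∫⁻ p, ENNReal.ofReal (Ecb A D p.1 p.2 r) ∂η ≤
      ENNReal.ofReal (LL (A ⊗ₖ A₂) (D ⊗ₖ D₂) r)
  eq : ∀ r : ℝ, 0 < r → ∫⁻ p, ENNReal.ofReal (Ecb (sc 1) (sc 1) p.1 p.2 r) ∂η =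
      ENNReal.ofReal (LL A₂ D₂ r)

/-- `½ f(P + l K, K) + ½ f(K + l P, P) - f((1+l) A, A)` with `P = A - D`, `K = A + D` -/
noncomputable def cmb (l : ℝ) (f : Matrix ι ι ℂ → Matrix ι ι ℂ → ℝ) (A D : Matrix ι ι ℂ) : ℝ :=
  (f ((A - D) + (l : ℂ) • (A + D)) (A + D) + f ((A + D) + (l : ℂ) • (A - D)) (A - D)) / 2
    - f (((1 + l : ℝ) : ℂ) • A) A

/-- `r ψ(B / r)` -/
noncomputable def hm (ψ : ℝ → ℝ) (r : ℝ) (B : Matrix ι ι ℂ) : Matrix ι ι ℂ :=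
  cfc (fun b : ℝ => r * ψ (b / r)) B

/-- data of a sheet: `ψ x = β + al x - ∫ e^{-u x} dm(u)` for `x ≥ 0`, `m` a finite measure on
`[0,∞)` with fourth moment, `ψ 0 > 0`, and a real `e` with `l al + e ≥ 0` -/
structure SheetD (l : ℝ) (ψ : ℝ → ℝ) (e β al : ℝ) (m : Measure ℝ) : Prop where
  fin : IsFiniteMeasure m
  supp : m (Iio 0) = 0
  mom : Integrable (fun u : ℝ => u ^ 4) m
  al0 : 0 ≤ al
  eq : ∀ x : ℝ, 0 ≤ x → ψ x = β + al * x - ∫ u, Real.exp (-(u * x)) ∂m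
  pos : 0 < ψ 0
  adm : 0 ≤ l * al + e

/-- a sheet -/
def Sheet (l : ℝ) (ψ : ℝ → ℝ) (e : ℝ) : Prop :=
  ∃ (β al : ℝ) (m : Measure ℝ), SheetD l ψ e β al m

/-- `- log det (r ψ(B/r) + e N)` -/
noncomputable def shr (ψ : ℝ → ℝ) (e r : ℝ) (B N : Matrix ι ι ℂ) : ℝ :=
  -ld (hm ψ r B + (e : ℂ) • N)

/-- `r + B ⊗ R + N ⊗ E` -/
noncomputable def Mr (R E : Matrix κ κ ℂ) (r : ℝ) (B N : Matrix ι ι ℂ) :
    Matrix (ι × κ) (ι × κ) ℂ :=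
  (r : ℂ) • (1 : Matrix (ι × κ) (ι × κ) ℂ) + B ⊗ₖ R + N ⊗ₖ E

/-- the log-det bound of the class side: for all `P, K ≥ 0`, with `B = P + l K`, `N = K`,
`log det (r + B ⊗ R + N ⊗ E) ≤ ∑ log det (r ψ_i(B/r) + e_i N) + c(r) dim`, with equality for
nonnegative scalars. -/
def HasSheets (R E : Matrix κ κ ℂ) (l : ℝ) : Prop :=
  ∃ (k : ℕ) (ψ : Fin k → ℝ → ℝ) (e : Fin k → ℝ) (c : ℝ → ℝ), (∀ i, Sheet l (ψ i) (e i)) ∧
    (∀ (ι : Type) [Fintype ι] [DecidableEq ι] (P K : Matrix ι ι ℂ),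
      P.PosSemidef → K.PosSemidef → ∀ r : ℝ, 0 < r →
      ld (Mr R E r (P + (l : ℂ) • K) K) ≤
        (∑ i, ld (hm (ψ i) r (P + (l : ℂ) • K) + (e i : ℂ) • K)) + c r * Fintype.card ι) ∧
    (∀ p q r : ℝ, 0 ≤ p → 0 ≤ q → 0 < r →
      ld ((r : ℂ) • (1 : Matrix κ κ ℂ) + ((p + l * q : ℝ) : ℂ) • R + (q : ℂ) • E) =
        (∑ i, Real.log (r * ψ i ((p + l * q) / r) + e i * q)) + c r)

/-- `v* (1 + x R)⁻¹ w` -/
noncomputable def phi (R : Matrix κ κ ℂ) (v w : κ → ℂ) (x : ℝ) : ℂ :=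
  star v ⬝ᵥ (((1 : Matrix κ κ ℂ) + (x : ℂ) • R)⁻¹ *ᵥ w)

/-- the positive root of the form `phi` -/
noncomputable def lp (R : Matrix κ κ ℂ) (v w : κ → ℂ) (x : ℝ) : ℝ :=
  lam (phi R v v x).re (phi R w w x).re (phi R v w x)

/-- the sheet `1 / lp` -/
noncomputable def psi (R : Matrix κ κ ℂ) (v w : κ → ℂ) (x : ℝ) : ℝ := (lp R v w x)⁻¹

/-- Stieltjes sums with all poles in a compact interval -/
def ResFormB (a0 a1 : ℝ) (f : ℝ → ℝ) : Prop :=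
  ∃ (K : ℕ) (a u : Fin K → ℝ), (∀ i, a i ∈ Icc a0 a1) ∧ (∀ i, 0 ≤ u i) ∧
    ∀ s, 0 ≤ s → f s = ∑ i, u i / (a i + s)

/-- Stieltjes sheet with bounds: `ψ x = β + al x - ∫ (1 + b x)⁻¹ dμ(b)`, `μ` on `[b0, b1]` -/
structure StD (b0 b1 C : ℝ) (ψ : ℝ → ℝ) (β al : ℝ) (μ : Measure ℝ) : Prop where
  mass : μ univ ≤ ENNReal.ofReal C
  supp : μ (Icc b0 b1)ᶜ = 0
  bβ : |β| ≤ C
  al0 : 0 ≤ al
  alC : al ≤ C
  eq : ∀ x : ℝ, 0 ≤ x → ψ x = β + al * x - ∫ b, (1 + b * x)⁻¹ ∂μ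

/-- one block of the class: some combination `a (A + D) - b (A - D)` with `a, b ≥ 0` not both `0`
has at most one positive and at most one negative eigenvalue -/
def Good (A D : Matrix κ κ ℂ) : Prop :=
  ∃ a b : ℝ, 0 ≤ a ∧ 0 ≤ b ∧ 0 < a + b ∧ Sig11 ((a : ℂ) • (A + D) - (b : ℂ) • (A - D))

/-- flagged mixtures of good blocks -/
def Flag2 (A D : Matrix κ κ ℂ) : Prop :=
  ∃ (m : ℕ) (P : Fin m → Matrix κ κ ℂ), (∀ i, (P i).IsHermitian) ∧ (∀ i, P i * P i = P i) ∧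
    ∑ i, P i = 1 ∧ (∀ i, P i * A = A * P i) ∧ (∀ i, P i * D = D * P i) ∧
    ∀ i, Good (P i * A) (P i * D)

/-- Q1 at the level of pairs, `(A₂, D₂)` against every pair -/
def Ineq (α : ℝ) (A₂ D₂ : Matrix κ κ ℂ) : Prop :=
  ∀ (ι : Type) [Fintype ι] [DecidableEq ι] (A D : Matrix ι ι ℂ), IsPsdPair A D →
    (((0 < α ∧ α ≤ 2 ∧ α ≠ 1) ∨ (3 ≤ α ∧ α ≤ 4)) →
      G α A D * G α A₂ D₂ ≤ (2 ^ (α - 1) - 1) * G α (A ⊗ₖ A₂) (D ⊗ₖ D₂)) ∧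
    ((2 ≤ α ∧ α ≤ 3) →
      (2 ^ (α - 1) - 1) * G α (A ⊗ₖ A₂) (D ⊗ₖ D₂) ≤ G α A D * G α A₂ D₂)

open Pool.Agent.Lib_helper98.Renyi in
/-- flagged mixtures of pairs of (unnormalised) states `σ 0, σ 1` such that some combination
`s σ 0 - t σ 1`, `s, t ≥ 0` not both `0`, is `v v* - w w*` -/
def FlaggedPencil {b : Type} [Fintype b] [DecidableEq b] (σ : Fin 2 → Matrix b b ℂ) : Prop :=
  ∃ (m : ℕ) (P : Fin m → Matrix b b ℂ), (∀ i, (P i).IsHermitian) ∧ (∀ i, P i * P i = P i) ∧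
    ∑ i, P i = 1 ∧ (∀ i x, P i * σ x = σ x * P i) ∧
    ∀ i, ∃ s t : ℝ, 0 ≤ s ∧ 0 ≤ t ∧ 0 < s + t ∧ ∃ v w : b → ℂ,
      P i * ((s : ℂ) • σ 0 - (t : ℂ) • σ 1) = vecMulVec v (star v) - vecMulVec w (star w)

end Pool.Agent.LDK
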