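import Pool.Agent.Lib_helper4.LDK.Fin
import Pool.Agent.Lib_helper12.LDK.Shc
import Pool.Agent.Lib_helper18.LDK.Blk
import Pool.Agent.Lib_helper31.LDK.Jac
import Pool.Agent.Lib_helper52.LDK.GppSt
import Pool.Agent.Lib_helper66.LDK.Mix
import Pool.Agent.Lib_helper93.LDK.CLS
import Pool.Agent.Lib_helper96.LDK.SH1

/-!
# LDK: generic blocks
-/

set_option autoImplicit false

open scoped BigOperators ComplexOrder Kronecker MatrixOrder Topology
open MeasureTheory Set Matrix Filter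

namespace Pool.Agent.LDK

open Pool.Agent.RC
open Pool.Agent.Lib_helper59.RCT (ExpDom)

theorem generic_expDom (κ : Type) [Fintype κ] [DecidableEq κ] (R : Matrix κ κ ℂ) (v w : κ → ℂ)
    (l : ℝ) (hR : R.PosDef) (hvw : LinearIndependent ℂ ![v, w]) (hl : 0 ≤ l)
    (hS : ((l : ℂ) • R + (vecMulVec v (star v) - vecMulVec w (star w))).PosSemidef) :
    ExpDom (((l : ℂ) • R + (vecMulVec v (star v) - vecMulVec w (star w))) + R)
      (((l : ℂ) • R + (vecMulVec v (star v) - vecMulVec w (star w))) - R) := by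
  have h := hasSheets1_of hR hl hS
    (fun ι _ _ B N hB hN hM => sh_logdet R hR v w hvw B N hB hN one_pos hM)
    (fun b n hb hM => (sh_scalar R hR v w hvw hb one_pos hM).2.2) (jac R hR v w hvw)
    (sheet_plus R hR v w hvw hl) (sheet_minus R hR v w hvw hl hS)
  rw [coe_smul_mat] at hS ⊢
  exact h.expDom' hR.posSemidef hl hS

theorem Q1Open.of_expDom {κ : Type} [Fintype κ] [DecidableEq κ] {A D : Matrix κ κ ℂ}
    (h : IsPsdPair A D) (he : ExpDom A D) : Q1Open A D where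
  r02 _ h0 h2 h1 ι _ _ A₁ D₁ h₁ := ineq02 h0 h2 h1 h he A₁ D₁ h₁
  r23 _ h2 h3 ι _ _ A₁ D₁ h₁ := ineq23 h2 h3 h he A₁ D₁ h₁
  r34 _ h3 h4 ι _ _ A₁ D₁ h₁ := ineq34 h3 h4 h he A₁ D₁ h₁

theorem genOpen : GenOpen := by
  intro κ _ _ R v w l hR hvw hl hS
  exact Q1Open.of_expDom (isPsdPair_of_SR hR.posSemidef hS)
    (generic_expDom κ R v w l hR hvw hl hS)

end Pool.Agent.LDK
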