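import Pool.Agent.Lib_helper4.LDK.Sym
import Pool.Agent.Lib_helper59.LDS.Fin

/-!
# LDK/LDS: flagged mixtures of pencil blocks, symmetric blocks and obtuse blocks
-/

set_option autoImplicit false

open scoped BigOperators ComplexOrder Kronecker MatrixOrder Topology
open MeasureTheory Set Matrix Filter

namespace Pool.Agent.LDK

open Pool.Agent.RC hiding dg
open Pool.Agent.Lib_helper98.Renyi Pool.Agent.LDS
open Pool.Agent.Lib_helper59.Lieb

variable {ι κ b : Type} [Fintype ι] [DecidableEq ι] [Fintype κ] [DecidableEq κ]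
  [Fintype b] [DecidableEq b]

/-- pencil block: `s S - t R = v v* - w w*` for some `s, t ≥ 0` not both `0` -/
def PencilBlock (S R : Matrix b b ℂ) : Prop :=
  ∃ s t : ℝ, 0 ≤ s ∧ 0 ≤ t ∧ 0 < s + t ∧ ∃ v w : b → ℂ,
    (s : ℂ) • S - (t : ℂ) • R = vecMulVec v (star v) - vecMulVec w (star w)

/-- symmetric block: `R = U S U` for a hermitian unitary `U`, and `S` has rank at most three -/
def SymmetricBlock (S R : Matrix b b ℂ) : Prop :=
  ∃ U : Matrix b b ℂ, U.IsHermitian ∧ U * U = 1 ∧ R = U * S * U ∧ S.rank ≤ 3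

/-- obtuse block: `S = ∑ p_i f_i f_i*`, `R = ∑ q_i f_i f_i*`, `p_i, q_i ≥ 0`, `p_i + q_i > 0`, where
the Gram matrix of the vectors `f_i` has an inverse `N` which is real with off-diagonal entries
`≤ 0` -/
def ObtuseBlock (S R : Matrix b b ℂ) : Prop :=
  ∃ (k : ℕ) (f : Fin k → b → ℂ) (p q : Fin k → ℝ) (N : Matrix (Fin k) (Fin k) ℝ),
    (∀ i, 0 ≤ p i ∧ 0 ≤ q i ∧ 0 < p i + q i) ∧ (∀ i j, i ≠ j → N i j ≤ 0) ∧
    (∀ i j, ∑ l, (star (f i) ⬝ᵥ f l) * (N l j : ℂ) = if i = j then 1 else 0) ∧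
    S = ∑ i, (p i : ℂ) • vecMulVec (f i) (star (f i)) ∧
    R = ∑ i, (q i : ℂ) • vecMulVec (f i) (star (f i))

/-- flagged mixtures: orthogonal projections `P i` summing to the identity and commuting with both
states, such that each pair of blocks `(P i * σ 0, P i * σ 1)` is a pencil block, a symmetric block,
or (when `1 ≤ α`) an obtuse block -/
def BlockMixture (α : ℝ) (σ : Fin 2 → Matrix b b ℂ) : Prop :=
  ∃ (m : ℕ) (P : Fin m → Matrix b b ℂ), (∀ i, (P i).IsHermitian) ∧ (∀ i, P i * P i = P i) ∧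
    ∑ i, P i = 1 ∧ (∀ i x, P i * σ x = σ x * P i) ∧
    ∀ i, PencilBlock (P i * σ 0) (P i * σ 1) ∨ SymmetricBlock (P i * σ 0) (P i * σ 1) ∨
      (1 ≤ α ∧ ObtuseBlock (P i * σ 0) (P i * σ 1))

/-- the three block types together -/
def UQ (α : ℝ) : MP2 := fun κ _ _ S R => GoodSR κ S R ∨ SymSR κ S R ∨ (1 ≤ α ∧ ObtQ κ S R)

theorem sum_smul_vecMulVec {k : ℕ} (f : Fin k → b → ℂ) (p : Fin k → ℝ) :
    ∑ i, (p i : ℂ) • vecMulVec (f i) (star (f i)) =
      (Matrix.of fun x i => f i x) * dg p * (Matrix.of fun x i => f i x)ᴴ := by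
  ext x y
  rw [Matrix.sum_apply, Matrix.mul_apply]
  refine Finset.sum_congr rfl fun i _ => ?_
  simp only [Matrix.smul_apply, Matrix.vecMulVec_apply, Pi.star_apply, smul_eq_mul, dg,
    Matrix.mul_diagonal, Matrix.of_apply, Matrix.conjTranspose_apply]
  ring

theorem obtPair_of_obtuse {S R : Matrix b b ℂ} (h : ObtuseBlock S R) : ObtPair S R := by
  obtain ⟨k, f, p, q, N, hpq, hN, hG, hS, hR⟩ := h
  refine ⟨Fin k, inferInstance, inferInstance, Matrix.of fun x i => f i x, fun i => N i i, p, q,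
    Matrix.of fun i j => if i = j then 0 else - N i j, ⟨?_, ?_⟩, fun i => (hpq i).1,
    fun i => (hpq i).2.1, fun i => (hpq i).2.2, ?_, ?_⟩
  · have e1 : dg (fun i => N i i) - cm (Matrix.of fun i j => if i = j then 0 else - N i j) =
        N.map fun x => (x : ℂ) := by
      ext i j
      by_cases hij : i = j
      · subst hij
        simp [dg, cm]
      · simp [dg, cm, hij]
    rw [e1]
    ext i j
    rw [Matrix.mul_apply, Matrix.one_apply, ← hG i j]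
    refine Finset.sum_congr rfl fun l _ => ?_
    congr 1
  · intro i j
    by_cases hij : i = j
    · simp [hij]
    · simpa [hij] using hN i j hij
  · rw [hS, sum_smul_vecMulVec]
  · rw [hR, sum_smul_vecMulVec]

theorem flagUQ_of_mixture {α : ℝ} {σ : Fin 2 → Matrix b b ℂ} (h : BlockMixture α σ) :
    FlagQ (UQ α) (σ 0) (σ 1) := by
  obtain ⟨m, P, h1, h2, h3, h4, h5⟩ := h
  refine ⟨m, P, h1, h2, h3, fun i => h4 i 0, fun i => h4 i 1, fun i => ?_⟩
  rcases h5 i with h | h | h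
  · exact Or.inl h
  · obtain ⟨U, hU, hUU, hR, hr⟩ := h
    exact Or.inr (Or.inl ⟨U, hU, hUU, hR, hr⟩)
  · exact Or.inr (Or.inr ⟨h.1, obtPair_of_obtuse h.2⟩)

theorem symSR_stab (α : ℝ) : Stab α SymSR := by
  intro κ _ _ S R hS hR hq
  exact symSR_conj (posSemidef_half_smul (hS.add hR)) hq _

theorem uq_stab (α : ℝ) : Stab α (UQ α) := by
  refine Stab.or (Stab.of_conj α fun _ _ _ hX h => goodSR_conj hX h) (Stab.or (symSR_stab α) ?_)
  intro κ _ _ S R hS hR hq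
  exact ⟨hq.1, obtQ_stab hq.1 κ S R hS hR hq.2⟩

theorem uq_open {α : ℝ} {κ : Type} [Fintype κ] [DecidableEq κ] (A D : Matrix κ κ ℂ)
    (h : IsPsdPair A D) (hq : UQ α κ (A + D) (A - D)) : Q1Open A D := by
  rcases hq with hq | hq | hq
  · exact goodSR_open genOpen pertSt h hq
  · exact sym_open h hq
  · exact obtQ_open A D h hq.2

theorem mixture_le {σ₁ : Fin 2 → Matrix ι ι ℂ} {σ₂ : Fin 2 → Matrix κ κ ℂ}
    (h₁ : ∀ x, IsDensity (σ₁ x)) (h₂ : ∀ x, IsDensity (σ₂ x)) (α : ℝ)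
    (hf : BlockMixture α σ₁ ∨ BlockMixture α σ₂)
    (hα : (0 < α ∧ α ≤ 2) ∨ (3 ≤ α ∧ α ≤ 4)) : Hsum α σ₁ σ₂ ≤ Fval α σ₁ σ₂ :=
  stab_le (Q := UQ α) (fun A D h hq => uq_open A D h hq) h₁ h₂
    (hf.imp flagUQ_of_mixture flagUQ_of_mixture) α (uq_stab α) hα

theorem mixture_ge {σ₁ : Fin 2 → Matrix ι ι ℂ} {σ₂ : Fin 2 → Matrix κ κ ℂ}
    (h₁ : ∀ x, IsDensity (σ₁ x)) (h₂ : ∀ x, IsDensity (σ₂ x)) (α : ℝ)
    (hf : BlockMixture α σ₁ ∨ BlockMixture α σ₂) (h2 : 2 ≤ α) (h3 : α ≤ 3) :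
    Fval α σ₁ σ₂ ≤ Hsum α σ₁ σ₂ :=
  stab_ge (Q := UQ α) (fun A D h hq => uq_open A D h hq) h₁ h₂
    (hf.imp flagUQ_of_mixture flagUQ_of_mixture) α (uq_stab α) h2 h3

theorem mixture_of_pencil {α : ℝ} {σ : Fin 2 → Matrix b b ℂ} (h : FlaggedPencil σ) :
    BlockMixture α σ := by
  obtain ⟨m, P, h1, h2, h3, h4, h5⟩ := h
  refine ⟨m, P, h1, h2, h3, h4, fun i => Or.inl ?_⟩
  obtain ⟨s, t, hs, ht, hst, v, w, hvw⟩ := h5 i
  refine ⟨s, t, hs, ht, hst, v, w, ?_⟩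
  rw [← hvw, Matrix.mul_sub, Matrix.mul_smul, Matrix.mul_smul]

end Pool.Agent.LDK
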