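import Pool.Agent.Lib_helper18.LDK.St

/-!
# Duality of pairs

For a PSD pair `(A, D)` with `A - D = Yᴴ Y`, `A + D = Zᴴ Z` the dual pair is
`(Y Yᴴ ⊕ Z Zᴴ, [[0, Y Zᴴ], [Z Yᴴ, 0]])`. For every `α > 0`
`κ G(A₁'⊗A₂', D₁'⊗D₂') - G(A₁',D₁') G(A₂',D₂') = 2^(α+1) (κ G(A₁⊗A₂, D₁⊗D₂) - G(A₁,D₁) G(A₂,D₂))`
with `κ = 2^(α-1) - 1`.
-/

set_option autoImplicit false

open scoped BigOperators ComplexOrder Kronecker MatrixOrder Topology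
open MeasureTheory Set Matrix Filter

namespace Pool.Agent.LDK

open Pool.Agent.RC

namespace DUAL

variable {ι κ : Type} [Fintype ι] [DecidableEq ι] [Fintype κ] [DecidableEq κ]

/-- `Tr M^α` -/
noncomputable abbrev tp (α : ℝ) (M : Matrix ι ι ℂ) : ℝ := trF (fun x => x ^ α) M

/-- `trF f (W Wᴴ) = trF f (Wᴴ W)` when `f 0 = 0` -/
theorem trF_mul_conjTranspose {f : ℝ → ℝ} (hf : f 0 = 0) (W : Matrix ι κ ℂ) :
    trF f (W * Wᴴ) = trF f (Wᴴ * W) := by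
  have h1 : (W * Wᴴ).IsHermitian := Matrix.isHermitian_mul_conjTranspose_self W
  have h2 : (Wᴴ * W).IsHermitian := Matrix.isHermitian_conjTranspose_mul_self W
  rw [TRF.trF_eq_roots f h1, TRF.trF_eq_roots f h2]
  have h := congrArg Polynomial.roots (Matrix.charpoly_mul_comm' W Wᴴ)
  have hn1 : (Polynomial.X ^ Fintype.card κ * (W * Wᴴ).charpoly) ≠ 0 :=
    mul_ne_zero (pow_ne_zero _ Polynomial.X_ne_zero) (Matrix.charpoly_monic _).ne_zero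
  have hn2 : (Polynomial.X ^ Fintype.card ι * (Wᴴ * W).charpoly) ≠ 0 :=
    mul_ne_zero (pow_ne_zero _ Polynomial.X_ne_zero) (Matrix.charpoly_monic _).ne_zero
  rw [Polynomial.roots_mul hn1, Polynomial.roots_mul hn2, Polynomial.roots_X_pow,
    Polynomial.roots_X_pow] at h
  have h' := congrArg (fun s : Multiset ℂ => (s.map fun z => f z.re).sum) h
  simpa [Multiset.map_add, Multiset.map_nsmul, Multiset.sum_nsmul, hf] using h'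

theorem trF_fromBlocks (f : ℝ → ℝ) {M : Matrix ι ι ℂ} {N : Matrix κ κ ℂ} (hM : M.IsHermitian)
    (hN : N.IsHermitian) : trF f (fromBlocks M 0 0 N) = trF f M + trF f N := by
  have h : (fromBlocks M 0 0 N).IsHermitian := by
    apply Matrix.IsHermitian.fromBlocks hM (by simp) hN
  rw [TRF.trF_eq_roots f h, TRF.trF_eq_roots f hM, TRF.trF_eq_roots f hN,
    Matrix.charpoly_fromBlocks_zero₁₂, Polynomial.roots_mul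
      (mul_ne_zero (Matrix.charpoly_monic _).ne_zero (Matrix.charpoly_monic _).ne_zero),
    Multiset.map_add, Multiset.sum_add]

/-- `[[M, N], [N, M]]` is similar to `(M + N) ⊕ (M - N)` -/
theorem trF_circ (f : ℝ → ℝ) {M N : Matrix ι ι ℂ} (hM : M.IsHermitian) (hN : N.IsHermitian) :
    trF f (fromBlocks M N N M) = trF f (M + N) + trF f (M - N) := by
  rw [← trF_fromBlocks f (hM.add hN) (hM.sub hN)]
  have h : (fromBlocks M N N M).IsHermitian :=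
    Matrix.IsHermitian.fromBlocks hM hN hM
  have h' : (fromBlocks (M + N) 0 0 (M - N)).IsHermitian :=
    Matrix.IsHermitian.fromBlocks (hM.add hN) (by simp) (hM.sub hN)
  rw [TRF.trF_eq_roots f h, TRF.trF_eq_roots f h']
  congr 3
  have e : fromBlocks M N N M = ((1 / 2 : ℂ) • fromBlocks (1 : Matrix ι ι ℂ) 1 1 (-1)) *
      (fromBlocks (M + N) 0 0 (M - N) * fromBlocks (1 : Matrix ι ι ℂ) 1 1 (-1)) := by
    rw [Matrix.fromBlocks_multiply, Matrix.fromBlocks_smul, Matrix.fromBlocks_multiply]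
    congr 1 <;>
    · simp only [Matrix.mul_one, Matrix.zero_mul, Matrix.mul_zero, add_zero, zero_add,
        Matrix.smul_mul, Matrix.one_mul, Matrix.mul_neg, Matrix.neg_mul]
      module
  rw [e, Matrix.charpoly_mul_comm, Matrix.mul_assoc, Matrix.mul_smul]
  have e2 : fromBlocks (1 : Matrix ι ι ℂ) 1 1 (-1) * fromBlocks (1 : Matrix ι ι ℂ) 1 1 (-1) =
      (2 : ℂ) • (1 : Matrix (ι ⊕ ι) (ι ⊕ ι) ℂ) := by
    rw [Matrix.fromBlocks_multiply, ← Matrix.fromBlocks_one, Matrix.fromBlocks_smul]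
    congr 1 <;>
    · simp only [Matrix.mul_one, Matrix.mul_neg, Matrix.neg_mul, neg_neg, smul_zero]
      module
  rw [e2, smul_smul]
  norm_num

theorem tp_smul {α : ℝ} {M : Matrix ι ι ℂ} (hM : M.PosSemidef) {c : ℝ} (hc : 0 ≤ c) :
    tp α ((c : ℂ) • M) = c ^ α * tp α M := by
  obtain ⟨U, a, hU, hU', ha, rfl⟩ :=
    Pool.Agent.Lib_helper98.Renyi.exists_spectral_nonneg hM
  have e : (c : ℂ) • (U * Matrix.diagonal (fun i => (a i : ℂ)) * Uᴴ) =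
      U * Matrix.diagonal (fun i => ((c * a i : ℝ) : ℂ)) * Uᴴ := by
    rw [← Matrix.smul_mul, ← Matrix.mul_smul]
    congr 2
    ext i j
    by_cases hij : i = j
    · subst hij; simp
    · simp [hij]
  unfold tp
  rw [e, TRF.trF_conj _ hU, TRF.trF_conj _ hU, Finset.mul_sum]
  exact Finset.sum_congr rfl fun i _ => Real.mul_rpow hc (ha i)

theorem tp_kron {α : ℝ} {M : Matrix ι ι ℂ} {N : Matrix κ κ ℂ} (hM : M.PosSemidef)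
    (hN : N.PosSemidef) : tp α (M ⊗ₖ N) = tp α M * tp α N := by
  obtain ⟨U, a, hU, hU', ha, rfl⟩ :=
    Pool.Agent.Lib_helper98.Renyi.exists_spectral_nonneg hM
  obtain ⟨V, b, hV, hV', hb, rfl⟩ :=
    Pool.Agent.Lib_helper98.Renyi.exists_spectral_nonneg hN
  unfold tp
  rw [Pool.Agent.Lib_helper98.Renyi.kron_conj,
    TRF.trF_conj _ (Pool.Agent.Lib_helper98.Renyi.kron_unitary hU hV), TRF.trF_conj _ hU,
    TRF.trF_conj _ hV, Fintype.sum_prod_type, Finset.sum_mul_sum]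
  exact Finset.sum_congr rfl fun i _ => Finset.sum_congr rfl fun j _ =>
    Real.mul_rpow (ha i) (hb j)

/-- the dual pair, first component -/
def Ad (Y Z : Matrix ι ι ℂ) : Matrix (ι ⊕ ι) (ι ⊕ ι) ℂ := fromBlocks (Y * Yᴴ) 0 0 (Z * Zᴴ)

/-- the dual pair, second component -/
def Dd (Y Z : Matrix ι ι ℂ) : Matrix (ι ⊕ ι) (ι ⊕ ι) ℂ := fromBlocks 0 (Y * Zᴴ) (Z * Yᴴ) 0

theorem Ad_add_Dd (Y Z : Matrix ι ι ℂ) : Ad Y Z + Dd Y Z = fromRows Y Z * (fromRows Y Z)ᴴ := by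
  rw [Matrix.conjTranspose_fromRows_eq_fromCols_conjTranspose, Matrix.fromRows_mul_fromCols, Ad, Dd,
    Matrix.fromBlocks_add]
  simp

theorem Ad_sub_Dd (Y Z : Matrix ι ι ℂ) :
    Ad Y Z - Dd Y Z = fromRows Y (-Z) * (fromRows Y (-Z))ᴴ := by
  rw [Matrix.conjTranspose_fromRows_eq_fromCols_conjTranspose, Matrix.fromRows_mul_fromCols, Ad, Dd, sub_eq_add_neg,
    Matrix.fromBlocks_neg, Matrix.fromBlocks_add]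
  simp [Matrix.conjTranspose_neg]

theorem isPsdPair_dual (Y Z : Matrix ι ι ℂ) : IsPsdPair (Ad Y Z) (Dd Y Z) where
  pos := by
    have h1 : Ad Y Z = fromBlocks Y 0 0 Z * (fromBlocks Y 0 0 Z)ᴴ := by
      rw [Ad, Matrix.fromBlocks_conjTranspose, Matrix.fromBlocks_multiply]
      simp
    rw [h1]
    exact Matrix.posSemidef_self_mul_conjTranspose _
  sub := by rw [Ad_sub_Dd]; exact Matrix.posSemidef_self_mul_conjTranspose _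
  add := by rw [Ad_add_Dd]; exact Matrix.posSemidef_self_mul_conjTranspose _

theorem trF_rpow_mul {α : ℝ} (hα : 0 < α) (W : Matrix ι κ ℂ) :
    trF (fun x => x ^ α) (W * Wᴴ) = trF (fun x => x ^ α) (Wᴴ * W) :=
  trF_mul_conjTranspose (f := fun x => x ^ α) (Real.zero_rpow hα.ne') W

theorem tp_Ad {α : ℝ} (hα : 0 < α) {A D Y Z : Matrix ι ι ℂ} (hY : A - D = Yᴴ * Y)
    (hZ : A + D = Zᴴ * Z) : tp α (Ad Y Z) = tp α (A + D) + tp α (A - D) := by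
  unfold tp Ad
  rw [trF_fromBlocks _ (Matrix.isHermitian_mul_conjTranspose_self Y)
      (Matrix.isHermitian_mul_conjTranspose_self Z), trF_rpow_mul hα,
    trF_rpow_mul hα, ← hY, ← hZ, add_comm]

theorem W_mul {A D Y Z : Matrix ι ι ℂ} (hY : A - D = Yᴴ * Y) (hZ : A + D = Zᴴ * Z) :
    (fromRows Y Z)ᴴ * fromRows Y Z = (2 : ℂ) • A ∧
    (fromRows Y (-Z))ᴴ * fromRows Y (-Z) = (2 : ℂ) • A ∧
    (fromRows Y Z)ᴴ * fromRows Y (-Z) = -((2 : ℂ) • D) ∧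
    (fromRows Y (-Z))ᴴ * fromRows Y Z = -((2 : ℂ) • D) := by
  refine ⟨?_, ?_, ?_, ?_⟩ <;>
  · rw [Matrix.conjTranspose_fromRows_eq_fromCols_conjTranspose, Matrix.fromCols_mul_fromRows]
    simp only [Matrix.conjTranspose_neg, Matrix.neg_mul, Matrix.mul_neg, neg_neg, ← hY, ← hZ]
    module

theorem tp_WW {α : ℝ} (hα : 0 < α) {A : Matrix ι ι ℂ} (hA : A.PosSemidef)
    {W : Matrix κ ι ℂ} (hW : Wᴴ * W = (2 : ℂ) • A) : tp α (W * Wᴴ) = 2 ^ α * tp α A := by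
  unfold tp
  rw [trF_rpow_mul hα, hW]
  have := tp_smul (α := α) hA (c := 2) (by norm_num)
  unfold tp at this
  rw [← this]
  norm_num

theorem G_dual {α : ℝ} (hα : 0 < α) {A D Y Z : Matrix ι ι ℂ} (hA : A.PosSemidef)
    (hY : A - D = Yᴴ * Y) (hZ : A + D = Zᴴ * Z) :
    G α (Ad Y Z) (Dd Y Z) = 2 ^ α * tp α A - (tp α (A + D) + tp α (A - D)) := by
  obtain ⟨h1, h2, -, -⟩ := W_mul hY hZ
  have e1 := tp_WW hα hA h1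
  have e2 := tp_WW hα hA h2
  rw [← Ad_add_Dd] at e1
  rw [← Ad_sub_Dd] at e2
  have e3 := tp_Ad hα hY hZ
  unfold tp at e1 e2 e3
  unfold G
  rw [e1, e2, e3]
  ring

theorem herm_of_YZ {A D Y Z : Matrix ι ι ℂ} (hY : A - D = Yᴴ * Y) (hZ : A + D = Zᴴ * Z) :
    D.IsHermitian := by
  have h1 : D = (1 / 2 : ℂ) • ((A + D) - (A - D)) := by module
  have h2 : ((A + D) - (A - D)).IsHermitian := by
    rw [hY, hZ]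
    exact (Matrix.isHermitian_conjTranspose_mul_self Z).sub
      (Matrix.isHermitian_conjTranspose_mul_self Y)
  rw [h1, Matrix.IsHermitian, Matrix.conjTranspose_smul, h2.eq]
  simp

/-- the two mixed terms of the product of two dual pairs -/
theorem tp_mix {α : ℝ} (hα : 0 < α) {A₁ D₁ : Matrix ι ι ℂ} {A₂ D₂ : Matrix κ κ ℂ}
    (h : IsPsdPair (A₁ ⊗ₖ A₂) (D₁ ⊗ₖ D₂)) (hA₁ : A₁.IsHermitian) (hA₂ : A₂.IsHermitian)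
    (hD₁ : D₁.IsHermitian) (hD₂ : D₂.IsHermitian)
    {μ ν : Type} [Fintype μ] [DecidableEq μ] [Fintype ν] [DecidableEq ν]
    {M : Matrix (μ × ν) (μ × ν) ℂ} (hM : M.PosSemidef)
    (W₁ X₁ : Matrix μ ι ℂ) (W₂ X₂ : Matrix ν κ ℂ)
    (hMe : (2 : ℂ) • M = (W₁ * W₁ᴴ) ⊗ₖ (W₂ * W₂ᴴ) + (X₁ * X₁ᴴ) ⊗ₖ (X₂ * X₂ᴴ))
    (a1 : W₁ᴴ * W₁ = (2 : ℂ) • A₁) (a2 : X₁ᴴ * X₁ = (2 : ℂ) • A₁)
    (a3 : W₂ᴴ * W₂ = (2 : ℂ) • A₂) (a4 : X₂ᴴ * X₂ = (2 : ℂ) • A₂)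
    (b1 : W₁ᴴ * X₁ = -((2 : ℂ) • D₁)) (b2 : X₁ᴴ * W₁ = -((2 : ℂ) • D₁))
    (b3 : W₂ᴴ * X₂ = -((2 : ℂ) • D₂)) (b4 : X₂ᴴ * W₂ = -((2 : ℂ) • D₂)) :
    tp α M = 2 ^ α * (tp α (A₁ ⊗ₖ A₂ + D₁ ⊗ₖ D₂) + tp α (A₁ ⊗ₖ A₂ - D₁ ⊗ₖ D₂)) := by
  set V : Matrix (μ × ν) ((ι × κ) ⊕ (ι × κ)) ℂ := fromCols (W₁ ⊗ₖ W₂) (X₁ ⊗ₖ X₂) with hV
  have h1 : V * Vᴴ = (2 : ℂ) • M := by
    rw [hV, Matrix.conjTranspose_fromCols_eq_fromRows_conjTranspose,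
      Matrix.fromCols_mul_fromRows, Matrix.conjTranspose_kronecker,
      Matrix.conjTranspose_kronecker, ← Matrix.mul_kronecker_mul, ← Matrix.mul_kronecker_mul, hMe]
  have h2 : Vᴴ * V = fromBlocks ((4 : ℂ) • (A₁ ⊗ₖ A₂)) ((4 : ℂ) • (D₁ ⊗ₖ D₂))
      ((4 : ℂ) • (D₁ ⊗ₖ D₂)) ((4 : ℂ) • (A₁ ⊗ₖ A₂)) := by
    rw [hV, Matrix.conjTranspose_fromCols_eq_fromRows_conjTranspose,
      Matrix.fromRows_mul_fromCols, Matrix.conjTranspose_kronecker,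
      Matrix.conjTranspose_kronecker, ← Matrix.mul_kronecker_mul, ← Matrix.mul_kronecker_mul,
      ← Matrix.mul_kronecker_mul, ← Matrix.mul_kronecker_mul, a1, a2, a3, a4, b1, b2, b3, b4]
    congr 1 <;>
    · ext p q
      simp only [Matrix.kroneckerMap_apply, Matrix.smul_apply, Matrix.neg_apply, smul_eq_mul]
      ring
  have hk : ∀ {X Y : Matrix (ι × κ) (ι × κ) ℂ}, X.IsHermitian → ((4 : ℂ) • X).IsHermitian := by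
    intro X Y hX
    rw [Matrix.IsHermitian, Matrix.conjTranspose_smul, hX.eq]
    simp
  have e1 := tp_smul (α := α) hM (c := 2) (by norm_num)
  have e2 : tp α ((2 : ℂ) • M) = tp α ((4 : ℂ) • (A₁ ⊗ₖ A₂) + (4 : ℂ) • (D₁ ⊗ₖ D₂)) +
      tp α ((4 : ℂ) • (A₁ ⊗ₖ A₂) - (4 : ℂ) • (D₁ ⊗ₖ D₂)) := by
    unfold tp
    rw [← h1, trF_rpow_mul hα, h2, trF_circ]
    · exact hk (Y := 0) h.pos.1
    · exact hk (Y := 0) h.herm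
  rw [← smul_add, ← smul_sub] at e2
  have e3 := tp_smul (α := α) h.add (c := 4) (by norm_num)
  have e4 := tp_smul (α := α) h.sub (c := 4) (by norm_num)
  have c2 : ((2 : ℝ) : ℂ) = 2 := by norm_num
  have c4 : ((4 : ℝ) : ℂ) = 4 := by norm_num
  rw [c2] at e1
  rw [c4] at e3 e4
  rw [e1, e3, e4] at e2
  have hp : (0 : ℝ) < 2 ^ α := Real.rpow_pos_of_pos (by norm_num) α
  have h4 : (4 : ℝ) ^ α = 2 ^ α * 2 ^ α := by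
    rw [← Real.mul_rpow (by norm_num) (by norm_num)]; norm_num
  rw [h4] at e2
  apply mul_left_cancel₀ hp.ne'
  linarith

theorem G_dual_kron {α : ℝ} (hα : 0 < α) {A₁ D₁ Y₁ Z₁ : Matrix ι ι ℂ} {A₂ D₂ Y₂ Z₂ : Matrix κ κ ℂ}
    (h₁ : IsPsdPair A₁ D₁) (h₂ : IsPsdPair A₂ D₂)
    (hY₁ : A₁ - D₁ = Y₁ᴴ * Y₁) (hZ₁ : A₁ + D₁ = Z₁ᴴ * Z₁)
    (hY₂ : A₂ - D₂ = Y₂ᴴ * Y₂) (hZ₂ : A₂ + D₂ = Z₂ᴴ * Z₂) :
    G α (Ad Y₁ Z₁ ⊗ₖ Ad Y₂ Z₂) (Dd Y₁ Z₁ ⊗ₖ Dd Y₂ Z₂) =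
      2 ^ α * (tp α (A₁ ⊗ₖ A₂ + D₁ ⊗ₖ D₂) + tp α (A₁ ⊗ₖ A₂ - D₁ ⊗ₖ D₂)) -
      (tp α (A₁ + D₁) + tp α (A₁ - D₁)) * (tp α (A₂ + D₂) + tp α (A₂ - D₂)) := by
  have d₁ := isPsdPair_dual Y₁ Z₁
  have d₂ := isPsdPair_dual Y₂ Z₂
  have k := h₁.kron h₂
  have kd := d₁.kron d₂
  obtain ⟨p1, p2, p3, p4⟩ := W_mul hY₁ hZ₁
  obtain ⟨q1, q2, q3, q4⟩ := W_mul hY₂ hZ₂
  have e1 := tp_mix hα k h₁.pos.1 h₂.pos.1 h₁.herm h₂.herm kd.add (fromRows Y₁ Z₁)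
    (fromRows Y₁ (-Z₁)) (fromRows Y₂ Z₂) (fromRows Y₂ (-Z₂))
    (by
      rw [← Ad_add_Dd Y₁ Z₁, ← Ad_sub_Dd Y₁ Z₁, ← Ad_add_Dd Y₂ Z₂, ← Ad_sub_Dd Y₂ Z₂]
      ext p q
      simp only [Matrix.kroneckerMap_apply, Matrix.smul_apply, Matrix.add_apply,
        Matrix.sub_apply, smul_eq_mul]
      ring) p1 p2 q1 q2 p3 p4 q3 q4
  have e2 := tp_mix hα k h₁.pos.1 h₂.pos.1 h₁.herm h₂.herm kd.sub (fromRows Y₁ Z₁)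
    (fromRows Y₁ (-Z₁)) (fromRows Y₂ (-Z₂)) (fromRows Y₂ Z₂)
    (by
      rw [← Ad_add_Dd Y₁ Z₁, ← Ad_sub_Dd Y₁ Z₁, ← Ad_add_Dd Y₂ Z₂, ← Ad_sub_Dd Y₂ Z₂]
      ext p q
      simp only [Matrix.kroneckerMap_apply, Matrix.smul_apply, Matrix.add_apply,
        Matrix.sub_apply, smul_eq_mul]
      ring) p1 p2 q2 q1 p3 p4 q4 q3
  have e3 := tp_kron (α := α) d₁.pos d₂.pos
  rw [tp_Ad hα hY₁ hZ₁, tp_Ad hα hY₂ hZ₂] at e3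
  unfold tp at e1 e2 e3 ⊢
  unfold G
  rw [e1, e2, e3]
  ring

/-- the duality identity -/
theorem duality {α : ℝ} (hα : 0 < α) {A₁ D₁ Y₁ Z₁ : Matrix ι ι ℂ} {A₂ D₂ Y₂ Z₂ : Matrix κ κ ℂ}
    (h₁ : IsPsdPair A₁ D₁) (h₂ : IsPsdPair A₂ D₂)
    (hY₁ : A₁ - D₁ = Y₁ᴴ * Y₁) (hZ₁ : A₁ + D₁ = Z₁ᴴ * Z₁)
    (hY₂ : A₂ - D₂ = Y₂ᴴ * Y₂) (hZ₂ : A₂ + D₂ = Z₂ᴴ * Z₂) :
    (2 ^ (α - 1) - 1) * G α (Ad Y₁ Z₁ ⊗ₖ Ad Y₂ Z₂) (Dd Y₁ Z₁ ⊗ₖ Dd Y₂ Z₂) -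
      G α (Ad Y₁ Z₁) (Dd Y₁ Z₁) * G α (Ad Y₂ Z₂) (Dd Y₂ Z₂) =
    4 * 2 ^ (α - 1) * ((2 ^ (α - 1) - 1) * G α (A₁ ⊗ₖ A₂) (D₁ ⊗ₖ D₂) -
      G α A₁ D₁ * G α A₂ D₂) := by
  rw [G_dual_kron hα h₁ h₂ hY₁ hZ₁ hY₂ hZ₂, G_dual hα h₁.pos hY₁ hZ₁, G_dual hα h₂.pos hY₂ hZ₂]
  have hk := tp_kron (α := α) h₁.pos h₂.pos
  have h2 : (2 : ℝ) ^ α = 2 * 2 ^ (α - 1) := by
    rw [Real.rpow_sub_one (by norm_num)]; ring
  unfold tp at hk ⊢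
  unfold G
  rw [hk, h2]
  ring

theorem exists_factor {M : Matrix ι ι ℂ} (hM : M.PosSemidef) :
    ∃ Y : Matrix ι ι ℂ, M = Yᴴ * Y := by
  obtain ⟨U, a, hU, hU', ha, rfl⟩ :=
    Pool.Agent.Lib_helper98.Renyi.exists_spectral_nonneg hM
  refine ⟨Matrix.diagonal (fun i => ((Real.sqrt (a i) : ℝ) : ℂ)) * Uᴴ, ?_⟩
  have h1 : (Matrix.diagonal (fun i => ((Real.sqrt (a i) : ℝ) : ℂ)) : Matrix ι ι ℂ)ᴴ *
      Matrix.diagonal (fun i => ((Real.sqrt (a i) : ℝ) : ℂ)) =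
      Matrix.diagonal (fun i => (a i : ℂ)) := by
    rw [Matrix.diagonal_conjTranspose, Matrix.diagonal_mul_diagonal]
    congr 1
    funext i
    simp only [Pi.star_apply, RCLike.star_def, Complex.conj_ofReal]
    rw [← Complex.ofReal_mul, Real.mul_self_sqrt (ha i)]
  rw [← h1, Matrix.conjTranspose_mul, Matrix.conjTranspose_conjTranspose]
  simp only [Matrix.mul_assoc]

theorem exists_YZ {A D : Matrix ι ι ℂ} (h : IsPsdPair A D) :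
    ∃ Y Z : Matrix ι ι ℂ, A - D = Yᴴ * Y ∧ A + D = Zᴴ * Z := by
  obtain ⟨Y, hY⟩ := exists_factor h.sub
  obtain ⟨Z, hZ⟩ := exists_factor h.add
  exact ⟨Y, Z, hY, hZ⟩

theorem Q1le_of_dual {α : ℝ} (hα : 0 < α) {A₂ D₂ Y₂ Z₂ : Matrix κ κ ℂ}
    (h₂ : IsPsdPair A₂ D₂) (hY₂ : A₂ - D₂ = Y₂ᴴ * Y₂) (hZ₂ : A₂ + D₂ = Z₂ᴴ * Z₂)
    (h : Q1le α (Ad Y₂ Z₂) (Dd Y₂ Z₂)) : Q1le α A₂ D₂ := by
  intro ι _ _ A₁ D₁ h₁
  obtain ⟨Y₁, Z₁, hY₁, hZ₁⟩ := exists_YZ h₁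
  have e := duality hα h₁ h₂ hY₁ hZ₁ hY₂ hZ₂
  have h3 := h (ι ⊕ ι) (Ad Y₁ Z₁) (Dd Y₁ Z₁) (isPsdPair_dual Y₁ Z₁)
  have hp : (0 : ℝ) < 4 * 2 ^ (α - 1) := by positivity
  have h4 : 0 ≤ (2 ^ (α - 1) - 1) * G α (A₁ ⊗ₖ A₂) (D₁ ⊗ₖ D₂) - G α A₁ D₁ * G α A₂ D₂ := by
    by_contra hn
    push Not at hn
    have := mul_neg_of_pos_of_neg hp hn
    linarith
  linarith

theorem Q1ge_of_dual {α : ℝ} (hα : 0 < α) {A₂ D₂ Y₂ Z₂ : Matrix κ κ ℂ}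
    (h₂ : IsPsdPair A₂ D₂) (hY₂ : A₂ - D₂ = Y₂ᴴ * Y₂) (hZ₂ : A₂ + D₂ = Z₂ᴴ * Z₂)
    (h : Q1ge α (Ad Y₂ Z₂) (Dd Y₂ Z₂)) : Q1ge α A₂ D₂ := by
  intro ι _ _ A₁ D₁ h₁
  obtain ⟨Y₁, Z₁, hY₁, hZ₁⟩ := exists_YZ h₁
  have e := duality hα h₁ h₂ hY₁ hZ₁ hY₂ hZ₂
  have h3 := h (ι ⊕ ι) (Ad Y₁ Z₁) (Dd Y₁ Z₁) (isPsdPair_dual Y₁ Z₁)
  have hp : (0 : ℝ) < 4 * 2 ^ (α - 1) := by positivity
  have h4 : (2 ^ (α - 1) - 1) * G α (A₁ ⊗ₖ A₂) (D₁ ⊗ₖ D₂) - G α A₁ D₁ * G α A₂ D₂ ≤ 0 := by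
    by_contra hn
    push Not at hn
    have := mul_pos hp hn
    linarith
  linarith

theorem Q1Open_of_dual {A₂ D₂ Y₂ Z₂ : Matrix κ κ ℂ}
    (h₂ : IsPsdPair A₂ D₂) (hY₂ : A₂ - D₂ = Y₂ᴴ * Y₂) (hZ₂ : A₂ + D₂ = Z₂ᴴ * Z₂)
    (h : Q1Open (Ad Y₂ Z₂) (Dd Y₂ Z₂)) : Q1Open A₂ D₂ where
  r02 α h0 h2 h1 := Q1le_of_dual h0 h₂ hY₂ hZ₂ (h.r02 α h0 h2 h1)
  r23 α h2 h3 := Q1ge_of_dual (by linarith) h₂ hY₂ hZ₂ (h.r23 α h2 h3)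
  r34 α h3 h4 := Q1le_of_dual (by linarith) h₂ hY₂ hZ₂ (h.r34 α h3 h4)

end DUAL

end Pool.Agent.LDK
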