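import Pool.Agent.Lib_helper4.LDK.Union2

/-!
# Examples of obtuse blocks: mixtures of pure states with equal overlaps
-/

set_option autoImplicit false

open scoped BigOperators ComplexOrder Kronecker MatrixOrder Topology
open MeasureTheory Set Matrix Filter

namespace Pool.Agent.LDK

variable {b : Type} [Fintype b] [DecidableEq b]

/-- mixtures (any weights) of vectors with all overlaps equal to `t ∈ [0, 1)` -/
theorem ex_equal_overlap {k : ℕ} (f : Fin k → b → ℂ) (p q : Fin k → ℝ) {t : ℝ} (ht0 : 0 ≤ t)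
    (ht1 : t < 1) (hf : ∀ i j, star (f i) ⬝ᵥ f j = if i = j then 1 else (t : ℂ))
    (hpq : ∀ i, 0 ≤ p i ∧ 0 ≤ q i ∧ 0 < p i + q i) :
    ObtuseBlock (∑ i, (p i : ℂ) • vecMulVec (f i) (star (f i)))
      (∑ i, (q i : ℂ) • vecMulVec (f i) (star (f i))) := by
  have h1 : 0 < 1 - t := by linarith
  rcases Nat.eq_zero_or_pos k with hk | hk
  · subst hk
    exact ⟨0, f, p, q, fun i => i.elim0, hpq, fun i => i.elim0, fun i => i.elim0, rfl, rfl⟩
  have hk1 : (1 : ℝ) ≤ (k : ℝ) := by exact_mod_cast hk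
  have h2 : 0 < 1 + ((k : ℝ) - 1) * t := by nlinarith
  refine ⟨k, f, p, q,
    Matrix.of fun i j => (1 / (1 - t)) * ((if i = j then 1 else 0) - t / (1 + ((k : ℝ) - 1) * t)),
    hpq, ?_, ?_, rfl, rfl⟩
  · intro i j hij
    simp only [Matrix.of_apply, if_neg hij, zero_sub]
    have : 0 ≤ t / (1 + ((k : ℝ) - 1) * t) := div_nonneg ht0 h2.le
    have h3 : 0 ≤ 1 / (1 - t) := by positivity
    nlinarith [mul_nonneg h3 this]
  · intro i j
    have e1 : ∀ l, star (f i) ⬝ᵥ f l = ((if i = l then 1 - t else 0 : ℝ) : ℂ) + (t : ℂ) := by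
      intro l
      rw [hf]
      by_cases h : i = l
      · simp [h]
      · simp [h]
    simp only [e1, Matrix.of_apply]
    have e2 : ∀ l, (((if i = l then 1 - t else 0 : ℝ) : ℂ) + (t : ℂ)) *
        (((1 / (1 - t)) * ((if l = j then 1 else 0) - t / (1 + ((k : ℝ) - 1) * t)) : ℝ) : ℂ) =
        ((((if i = l then 1 - t else 0) + t) *
          ((1 / (1 - t)) * ((if l = j then 1 else 0) - t / (1 + ((k : ℝ) - 1) * t))) : ℝ) : ℂ) := by
      intro l
      push_cast
      ring
    simp only [e2]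
    rw [← Complex.ofReal_sum]
    have e3 : ∑ l : Fin k, ((if i = l then 1 - t else 0) + t) *
        ((1 / (1 - t)) * ((if l = j then 1 else 0) - t / (1 + ((k : ℝ) - 1) * t))) =
        if i = j then 1 else 0 := by
      have e4 : ∀ l : Fin k, ((if i = l then 1 - t else 0) + t) *
          ((1 / (1 - t)) * ((if l = j then 1 else 0) - t / (1 + ((k : ℝ) - 1) * t))) =
          (if i = l then (if l = j then 1 else 0) - t / (1 + ((k : ℝ) - 1) * t) else 0) +
          (if l = j then t / (1 - t) else 0) -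
            (t / (1 - t)) * (t / (1 + ((k : ℝ) - 1) * t)) := by
        intro l
        have h3 : (1 + ((k : ℝ) - 1) * t) ≠ 0 := h2.ne'
        have h4 : (1 - t) ≠ 0 := h1.ne'
        split_ifs
        · field_simp
          ring
        · field_simp
          ring
        · field_simp
          ring
        · field_simp
          ring
      rw [Finset.sum_congr rfl fun l _ => e4 l, Finset.sum_sub_distrib, Finset.sum_add_distrib,
        Finset.sum_ite_eq, Finset.sum_ite_eq', if_pos (Finset.mem_univ _),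
        if_pos (Finset.mem_univ _), Finset.sum_const, Finset.card_univ, Fintype.card_fin,
        nsmul_eq_mul]
      have key : t / (1 - t) - t / (1 + ((k : ℝ) - 1) * t) -
          (k : ℝ) * ((t / (1 - t)) * (t / (1 + ((k : ℝ) - 1) * t))) = 0 := by
        obtain ⟨m, hm⟩ : ∃ m : ℝ, m = 1 + ((k : ℝ) - 1) * t := ⟨_, rfl⟩
        have h3 : m ≠ 0 := by rw [hm]; exact h2.ne'
        have h4 : (1 - t) ≠ 0 := h1.ne'
        rw [← hm]
        have h5 : t / (1 - t) - t / m - (k : ℝ) * ((t / (1 - t)) * (t / m)) =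
            t * (m - (1 - t) - k * t) / ((1 - t) * m) := by
          field_simp
        rw [h5, hm]
        have : (1 + ((k : ℝ) - 1) * t) - (1 - t) - k * t = 0 := by ring
        rw [this, mul_zero, zero_div]
      split_ifs with hij
      · linarith
      · linarith
    rw [e3]
    split_ifs <;> simp

/-- such pairs are `FlaggedBlocks` -/
theorem flagged_equal_overlap {k : ℕ} (f : Fin k → b → ℂ) {t : ℝ} (ht0 : 0 ≤ t)
    (ht1 : t < 1) (hf : ∀ i j, star (f i) ⬝ᵥ f j = if i = j then 1 else (t : ℂ))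
    (w : Fin 2 → Fin k → ℝ) (hw : ∀ x i, 0 ≤ w x i) (hw' : ∀ i, 0 < w 0 i + w 1 i)
    (σ : Fin 2 → Matrix b b ℂ) (hσ : ∀ x, σ x = ∑ i, (w x i : ℂ) • vecMulVec (f i) (star (f i))) :
    FlaggedBlocks σ := by
  refine ⟨1, fun _ => 1, fun _ => Matrix.isHermitian_one, fun _ => Matrix.one_mul _, by simp,
    fun _ x => by rw [Matrix.one_mul, Matrix.mul_one], fun _ => Or.inr (Or.inr ?_)⟩
  rw [Matrix.one_mul, Matrix.one_mul, hσ 0, hσ 1]
  exact ex_equal_overlap f (w 0) (w 1) ht0 ht1 hf fun i => ⟨hw 0 i, hw 1 i, hw' i⟩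

end Pool.Agent.LDK
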