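import Pool.Agent.Lib_helper4.LDK.Ldb
import Pool.Agent.Lib_helper59.RCT.Glue

/-!
# LDK: exponential domination of a generic block
-/

set_option autoImplicit false

open scoped BigOperators ComplexOrder Kronecker MatrixOrder Topology
open MeasureTheory Set Matrix Filter

namespace Pool.Agent.LDK

open Pool.Agent.RC
open Pool.Agent.Lib_helper59.RCT (ExpDom)

variable {ι κ : Type} [Fintype ι] [DecidableEq ι] [Fintype κ] [DecidableEq κ]

theorem Ld_eq_ld' {M : Matrix ι ι ℂ} (hM : M.IsHermitian) :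
    Pool.Agent.Lib_helper59.RCT.Ld M = ld M := by
  unfold ld
  rw [trF_eq_cfc _ hM]
  rfl

theorem HasSheets1.expDom' {R E : Matrix κ κ ℂ} (hR : R.PosSemidef) {l : ℝ} (hl : 0 ≤ l)
    (hS : (l • R + E).PosSemidef) (h : HasSheets1 R E l) :
    ExpDom ((l • R + E) + R) ((l • R + E) - R) := by
  obtain ⟨k, ψ, e, c, hs, hle, hsc⟩ := h
  refine Pool.Agent.Lib_helper59.RCT.ExpDom.of_logdet hR hS hl ψ e c hs ?_ ?_
  · intro ι _ _ P K hP hK
    have e1 : P ⊗ₖ R + K ⊗ₖ (l • R + E) = (P + l • K) ⊗ₖ R + K ⊗ₖ E := by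
      ext p q
      simp only [Matrix.add_apply, Matrix.smul_apply, Matrix.kroneckerMap_apply,
        Complex.real_smul]
      ring
    have h1 : (1 + (P ⊗ₖ R + K ⊗ₖ (l • R + E))).IsHermitian :=
      (Matrix.PosDef.one.add_posSemidef ((hP.kronecker hR).add (hK.kronecker hS))).1
    have h2 : ∀ i, (cfc (ψ i) (P + l • K) + e i • K).IsHermitian := by
      intro i
      have hB : (P + l • K).IsHermitian := (hP.add (hK.smul hl)).1
      have h3 : (cfc (ψ i) (P + l • K)).IsHermitian :=
        cfc_predicate (ψ i) (P + l • K)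
      have h4 : (e i • K).IsHermitian := by
        rw [Matrix.IsHermitian, Matrix.conjTranspose_smul, hK.1.eq]; simp
      exact h3.add h4
    rw [Ld_eq_ld' h1, Finset.sum_congr rfl fun i _ => Ld_eq_ld' (h2 i), e1]
    exact hle ι P K hP hK
  · intro p q hp hq
    have e1 : p • R + q • (l • R + E) = (p + l * q) • R + q • E := by module
    have h1 : (1 + (p • R + q • (l • R + E))).IsHermitian :=
      (Matrix.PosDef.one.add_posSemidef ((hR.smul hp).add (hS.smul hq))).1
    rw [Ld_eq_ld' h1, e1]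
    exact hsc p q hp hq

end Pool.Agent.LDK
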