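import Pool.Agent.Lib_helper4.LDK.Ldb
import Pool.Agent.Lib_helper59.RCT.ExpDom

/-!
# LDK, block LDB: from the sheets to the second difference of `- log det`
-/

set_option autoImplicit false

open scoped BigOperators ComplexOrder Kronecker MatrixOrder Topology
open MeasureTheory Set Matrix Filter

namespace Pool.Agent.LDK

open Pool.Agent.RC
open Pool.Agent.Lib_helper59.RCT (PP sd nl en ExpDom ExpMeas)

variable {ι κ : Type} [Fintype ι] [DecidableEq ι] [Fintype κ] [DecidableEq κ]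

theorem Ld_eq_ld {M : Matrix ι ι ℂ} (hM : M.PosDef) : Pool.Agent.Lib_helper59.RCT.Ld M = ld M := by
  rw [Pool.Agent.Lib_helper59.RCT.Ld_eq_ldet hM, ld_eq_ldet hM]

theorem trF_nl_eq {X : Matrix ι ι ℂ} (hX : X.PosSemidef) :
    Pool.Agent.Lib_helper98.Renyi.trF nl X = -ld (1 + X) := by
  rw [Pool.Agent.Lib_helper59.RCT.trF_nl hX, Ld_eq_ld (Matrix.PosDef.one.add_posSemidef hX)]

/-- the combination of `- log det (ψ(B) + e N)` at `(P + l K, K)`, `(K + l P, P)`, `((1+l)A, A)` -/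
noncomputable def cH (l e : ℝ) (ψ : ℝ → ℝ) (A D : Matrix ι ι ℂ) : ℝ :=
  ld (cfc ψ (A + l • A) + e • A) - (ld (cfc ψ ((A - D) + l • (A + D)) + e • (A + D)) +
    ld (cfc ψ ((A + D) + l • (A - D)) + e • (A - D))) / 2

theorem kron_decomp (R E : Matrix κ κ ℂ) (l : ℝ) (A D : Matrix ι ι ℂ) :
    A ⊗ₖ ((l • R + E) + R) + D ⊗ₖ ((l • R + E) - R) =
      ((A - D) + l • (A + D)) ⊗ₖ R + (A + D) ⊗ₖ E := by
  ext p q
  simp only [Matrix.add_apply, Matrix.sub_apply, Matrix.smul_apply, Matrix.kroneckerMap_apply,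
    Complex.real_smul]
  ring

theorem kron_decomp' (R E : Matrix κ κ ℂ) (l : ℝ) (A D : Matrix ι ι ℂ) :
    A ⊗ₖ ((l • R + E) + R) - D ⊗ₖ ((l • R + E) - R) =
      ((A + D) + l • (A - D)) ⊗ₖ R + (A - D) ⊗ₖ E := by
  ext p q
  simp only [Matrix.add_apply, Matrix.sub_apply, Matrix.smul_apply, Matrix.kroneckerMap_apply,
    Complex.real_smul]
  ring

theorem kron_decomp0 (R E : Matrix κ κ ℂ) (l : ℝ) (A : Matrix ι ι ℂ) :
    A ⊗ₖ ((l • R + E) + R) = (A + l • A) ⊗ₖ R + A ⊗ₖ E := by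
  ext p q
  simp only [Matrix.add_apply, Matrix.smul_apply, Matrix.kroneckerMap_apply,
    Complex.real_smul]
  ring

theorem pp_class {R E : Matrix κ κ ℂ} (hR : R.PosSemidef) {l : ℝ}
    (hS : (l • R + E).PosSemidef) : PP ((l • R + E) + R) ((l • R + E) - R) := by
  constructor
  · have e : (l • R + E) + R + ((l • R + E) - R) = (2 : ℝ) • (l • R + E) := by module
    rw [e]; exact hS.smul (by norm_num)
  · have e : (l • R + E) + R - ((l • R + E) - R) = (2 : ℝ) • R := by module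
    rw [e]; exact hR.smul (by norm_num)

theorem pp_kron {A D : Matrix ι ι ℂ} {A₂ D₂ : Matrix κ κ ℂ} (h : PP A D) (h₂ : PP A₂ D₂) :
    PP (A ⊗ₖ A₂) (D ⊗ₖ D₂) := by
  have k1 : IsPsdPair A D := ⟨h.psd, h.sub, h.add⟩
  have k2 : IsPsdPair A₂ D₂ := ⟨h₂.psd, h₂.sub, h₂.add⟩
  have k := k1.kron k2
  exact ⟨k.add, k.sub⟩

theorem sd_nl_eq {Z W : Matrix ι ι ℂ} (h : PP Z W) :
    sd nl Z W = ld (1 + Z) - (ld (1 + (Z + W)) + ld (1 + (Z - W))) / 2 := by
  unfold sd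
  rw [trF_nl_eq h.add, trF_nl_eq h.sub, trF_nl_eq h.psd]
  ring

/-- the second difference of `-log det (1 + ·)` dominates the sum over the sheets -/
theorem sum_cH_le {R E : Matrix κ κ ℂ} (hR : R.PosSemidef) {l : ℝ}
    (hS : (l • R + E).PosSemidef) {k : ℕ} {ψ : Fin k → ℝ → ℝ} {e : Fin k → ℝ} {c : ℝ}
    (hle : ∀ (ι : Type) [Fintype ι] [DecidableEq ι] (P K : Matrix ι ι ℂ),
      P.PosSemidef → K.PosSemidef →
      ld ((1 : Matrix (ι × κ) (ι × κ) ℂ) + ((P + l • K) ⊗ₖ R + K ⊗ₖ E)) ≤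
        (∑ i, ld (cfc (ψ i) (P + l • K) + e i • K)) + c * Fintype.card ι)
    (hsc : ∀ p q : ℝ, 0 ≤ p → 0 ≤ q →
      ld ((1 : Matrix κ κ ℂ) + ((p + l * q) • R + q • E)) =
        (∑ i, Real.log (ψ i (p + l * q) + e i * q)) + c)
    {A D : Matrix ι ι ℂ} (h : PP A D) :
    ∑ i, cH l (e i) (ψ i) A D ≤
      sd nl (A ⊗ₖ ((l • R + E) + R)) (D ⊗ₖ ((l • R + E) - R)) := by
  rw [sd_nl_eq (pp_kron h (pp_class hR hS)), kron_decomp, kron_decomp', kron_decomp0,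
    centre_eq hR hS hsc h.psd]
  have h1 := hle ι (A - D) (A + D) h.sub h.add
  have h2 := hle ι (A + D) (A - D) h.add h.sub
  unfold cH
  rw [Finset.sum_sub_distrib, ← Finset.sum_div, Finset.sum_add_distrib]
  linarith

/-- equality at the scalar pair `(a, a)` -/
theorem sum_cH_eq {R E : Matrix κ κ ℂ} (hR : R.PosSemidef) {l : ℝ}
    (hS : (l • R + E).PosSemidef) {k : ℕ} {ψ : Fin k → ℝ → ℝ} {e : Fin k → ℝ} {c : ℝ}
    (hsc : ∀ p q : ℝ, 0 ≤ p → 0 ≤ q →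
      ld ((1 : Matrix κ κ ℂ) + ((p + l * q) • R + q • E)) =
        (∑ i, Real.log (ψ i (p + l * q) + e i * q)) + c)
    {a : ℝ} (ha : 0 ≤ a) :
    ∑ i, cH l (e i) (ψ i) (a • (1 : Matrix (Fin 1) (Fin 1) ℂ)) (a • (1 : Matrix (Fin 1) (Fin 1) ℂ))
      = sd nl (a • ((l • R + E) + R)) (a • ((l • R + E) - R)) := by
  have hPP : PP (a • ((l • R + E) + R)) (a • ((l • R + E) - R)) := by
    have := pp_class hR hS
    exact ⟨by rw [← smul_add]; exact this.add.smul ha, by rw [← smul_sub]; exact this.sub.smul ha⟩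
  have hdiag : ∀ (p q : ℝ) (ψ : ℝ → ℝ) (e : ℝ),
      ld (cfc ψ (p • (1 : Matrix (Fin 1) (Fin 1) ℂ) + l • (q • (1 : Matrix (Fin 1) (Fin 1) ℂ))) +
        e • (q • (1 : Matrix (Fin 1) (Fin 1) ℂ))) = Real.log (ψ (p + l * q) + e * q) := by
    intro p q ψ e
    have e1 : ∀ t : ℝ, t • (1 : Matrix (Fin 1) (Fin 1) ℂ) =
        (1 : Matrix (Fin 1) (Fin 1) ℂ) * Matrix.diagonal (fun _ => (t : ℂ)) *
          (1 : Matrix (Fin 1) (Fin 1) ℂ)ᴴ := by
      intro t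
      ext i j
      fin_cases i; fin_cases j
      simp
    rw [e1 p, e1 q, diag_H (by simp) (fun _ => p) (fun _ => q), ld_conj (by simp)]
    simp
  have e0 : (1 : Matrix κ κ ℂ) + a • ((l • R + E) + R) =
      1 + ((a + l * a) • R + a • E) := by module
  have e1 : (1 : Matrix κ κ ℂ) + (a • ((l • R + E) + R) + a • ((l • R + E) - R)) =
      1 + ((0 + l * (2 * a)) • R + (2 * a) • E) := by module
  have e2 : (1 : Matrix κ κ ℂ) + (a • ((l • R + E) + R) - a • ((l • R + E) - R)) =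
      1 + ((2 * a + l * 0) • R + (0 : ℝ) • E) := by module
  rw [sd_nl_eq hPP, e0, e1, e2, hsc a a ha ha, hsc 0 (2 * a) le_rfl (by linarith),
    hsc (2 * a) 0 (by linarith) le_rfl]
  have f0 : ∀ i, cH l (e i) (ψ i) (a • (1 : Matrix (Fin 1) (Fin 1) ℂ))
      (a • (1 : Matrix (Fin 1) (Fin 1) ℂ)) = Real.log (ψ i (a + l * a) + e i * a) -
      (Real.log (ψ i (0 + l * (2 * a)) + e i * (2 * a)) +
        Real.log (ψ i (2 * a + l * 0) + e i * 0)) / 2 := by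
    intro i
    unfold cH
    have g1 : a • (1 : Matrix (Fin 1) (Fin 1) ℂ) - a • (1 : Matrix (Fin 1) (Fin 1) ℂ) =
        (0 : ℝ) • (1 : Matrix (Fin 1) (Fin 1) ℂ) := by module
    have g2 : a • (1 : Matrix (Fin 1) (Fin 1) ℂ) + a • (1 : Matrix (Fin 1) (Fin 1) ℂ) =
        (2 * a) • (1 : Matrix (Fin 1) (Fin 1) ℂ) := by module
    rw [g1, g2, hdiag, hdiag, hdiag]
  rw [Finset.sum_congr rfl fun i _ => f0 i, Finset.sum_sub_distrib, ← Finset.sum_div,
    Finset.sum_add_distrib]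
  ring

end Pool.Agent.LDK
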