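import Pool.Agent.Lib_helper4.LDK.Glue

/-!
# LDK, block LDB: exponential domination from the sheets
-/

set_option autoImplicit false

open scoped BigOperators ComplexOrder Kronecker MatrixOrder Topology
open MeasureTheory Set Matrix Filter

namespace Pool.Agent.LDK

open Pool.Agent.RC
open Pool.Agent.Lib_helper59.RCT (PP sd nl en ExpDom ExpMeas)

variable {ι κ : Type} [Fintype ι] [DecidableEq ι] [Fintype κ] [DecidableEq κ]

/-- a direction measure of one sheet -/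
def SheetMeas (l : ℝ) (ψ : ℝ → ℝ) (e : ℝ) (μ : Measure (ℝ × ℝ)) : Prop :=
  SFinite μ ∧ (∀ᵐ p ∂μ, |p.2| ≤ p.1) ∧
    (∀ (ι : Type) [Fintype ι] [DecidableEq ι] (A D : Matrix ι ι ℂ), PP A D →
      0 ≤ cH l e ψ A D ∧
      ∫⁻ p, ENNReal.ofReal (sd en (p.1 • A) (p.2 • D)) ∂μ ≤ ENNReal.ofReal (cH l e ψ A D)) ∧
    (∀ a : ℝ, 0 ≤ a →
      ∫⁻ p, ENNReal.ofReal (sd en (p.1 • (a • (1 : Matrix (Fin 1) (Fin 1) ℂ)))
        (p.2 • (a • (1 : Matrix (Fin 1) (Fin 1) ℂ)))) ∂μ =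
        ENNReal.ofReal (cH l e ψ (a • (1 : Matrix (Fin 1) (Fin 1) ℂ))
          (a • (1 : Matrix (Fin 1) (Fin 1) ℂ))))

theorem expDom_of {R E : Matrix κ κ ℂ} (hR : R.PosSemidef) {l : ℝ}
    (hS : (l • R + E).PosSemidef) {k : ℕ} {ψ : Fin k → ℝ → ℝ} {e : Fin k → ℝ} {c : ℝ}
    (hle : ∀ (ι : Type) [Fintype ι] [DecidableEq ι] (P K : Matrix ι ι ℂ),
      P.PosSemidef → K.PosSemidef →
      ld ((1 : Matrix (ι × κ) (ι × κ) ℂ) + ((P + l • K) ⊗ₖ R + K ⊗ₖ E)) ≤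
        (∑ i, ld (cfc (ψ i) (P + l • K) + e i • K)) + c * Fintype.card ι)
    (hsc : ∀ p q : ℝ, 0 ≤ p → 0 ≤ q →
      ld ((1 : Matrix κ κ ℂ) + ((p + l * q) • R + q • E)) =
        (∑ i, Real.log (ψ i (p + l * q) + e i * q)) + c)
    (μ : Fin k → Measure (ℝ × ℝ)) (hμ : ∀ i, SheetMeas l (ψ i) (e i) (μ i)) :
    ExpMeas ((l • R + E) + R) ((l • R + E) - R) (Measure.sum μ) := by
  have hPPu : ∀ {ι : Type} [Fintype ι] [DecidableEq ι] {A D : Matrix ι ι ℂ}, PP A D →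
      ∀ {u : ℝ}, 0 < u → PP (u • A) (u • D) := by
    intro ι _ _ A D h u hu
    exact ⟨by rw [← smul_add]; exact h.add.smul hu.le, by rw [← smul_sub]; exact h.sub.smul hu.le⟩
  have hsm : ∀ {ι : Type} [Fintype ι] [DecidableEq ι] (A : Matrix ι ι ℂ) (u x : ℝ),
      (u * x) • A = x • (u • A) := by
    intro ι _ _ A u x
    rw [smul_smul, mul_comm]
  have : ∀ i, SFinite (μ i) := fun i => (hμ i).1
  refine ⟨inferInstance, ?_, ?_, ?_⟩
  · rw [Measure.ae_sum_iff]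
    exact fun i => (hμ i).2.1
  · intro ι _ _ A D h u hu
    have h' := hPPu h hu
    rw [lintegral_sum_measure, tsum_fintype]
    simp only [hsm]
    refine (Finset.sum_le_sum fun i _ => ((hμ i).2.2.1 ι (u • A) (u • D) h').2).trans ?_
    rw [← ENNReal.ofReal_sum_of_nonneg fun i _ => ((hμ i).2.2.1 ι (u • A) (u • D) h').1]
    apply ENNReal.ofReal_le_ofReal
    have := sum_cH_le hR hS hle hsc h'
    rwa [Matrix.smul_kronecker, Matrix.smul_kronecker] at this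
  · intro u hu
    have h1 : PP (1 : Matrix (Fin 1) (Fin 1) ℂ) (1 : Matrix (Fin 1) (Fin 1) ℂ) := by
      constructor
      · exact Matrix.PosSemidef.one.add Matrix.PosSemidef.one
      · rw [sub_self]; exact Matrix.PosSemidef.zero
    have h' := hPPu h1 hu
    rw [lintegral_sum_measure, tsum_fintype]
    simp only [hsm]
    rw [Finset.sum_congr rfl fun i _ => (hμ i).2.2.2 u hu.le,
      ← ENNReal.ofReal_sum_of_nonneg fun i _ => ((hμ i).2.2.1 (Fin 1) _ _ h').1,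
      sum_cH_eq hR hS hsc hu.le]

theorem HasSheets1.expDom {R E : Matrix κ κ ℂ} (hR : R.PosSemidef) {l : ℝ}
    (hS : (l • R + E).PosSemidef)
    (hkey : ∀ {ψ : ℝ → ℝ} {e : ℝ}, Sheet l ψ e → ∃ μ, SheetMeas l ψ e μ)
    (h : HasSheets1 R E l) : ExpDom ((l • R + E) + R) ((l • R + E) - R) := by
  obtain ⟨k, ψ, e, c, hs, hle, hsc⟩ := h
  choose μ hμ using fun i => hkey (hs i)
  exact ⟨Measure.sum μ, expDom_of hR hS hle hsc μ hμ⟩

end Pool.Agent.LDK
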