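import Pool.Agent.Lib_helper4.LDK.Defs
import Pool.Agent.Lib_helper66.LDK.Det

/-!
# LDK, block LDB: assembly of the class side
-/

set_option autoImplicit false

open scoped BigOperators ComplexOrder Kronecker MatrixOrder Topology
open MeasureTheory Set Matrix Filter

namespace Pool.Agent.LDK

open Pool.Agent.RC

variable {ι κ : Type} [Fintype ι] [DecidableEq ι] [Fintype κ] [DecidableEq κ]

theorem ld_eq_ldet {X : Matrix ι ι ℂ} (h : X.PosDef) : ld X = ldet X := by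
  rw [ldet_eq_sum h]
  unfold ld trF
  rw [dif_pos h.1]

theorem ld_conj {U : Matrix ι ι ℂ} (hU : Uᴴ * U = 1) (c : ι → ℝ) :
    ld (U * Matrix.diagonal (fun i => (c i : ℂ)) * Uᴴ) = ∑ i, Real.log (c i) :=
  TRF.trF_conj _ hU c

theorem posDef_one_kron {B : Matrix ι ι ℂ} {T : Matrix κ κ ℂ} (hB : B.PosSemidef)
    (hT : T.PosSemidef) : ((1 : Matrix (ι × κ) (ι × κ) ℂ) + B ⊗ₖ T).PosDef :=
  Matrix.PosDef.one.add_posSemidef (hB.kronecker hT)

theorem posDef_one_smul {T : Matrix κ κ ℂ} (hT : T.PosSemidef) {b : ℝ} (hb : 0 ≤ b) :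
    ((1 : Matrix κ κ ℂ) + (b : ℂ) • T).PosDef :=
  Matrix.PosDef.one.add_posSemidef (hT.smul (by exact_mod_cast hb))

/-- `log det (1 + B ⊗ T)` for `B` diagonalised -/
theorem ld_one_kron {U : Matrix ι ι ℂ} (hU : Uᴴ * U = 1) (hU' : U * Uᴴ = 1) {b : ι → ℝ}
    (hb : ∀ i, 0 ≤ b i) {T : Matrix κ κ ℂ} (hT : T.PosSemidef) :
    ld ((1 : Matrix (ι × κ) (ι × κ) ℂ) +
      (U * Matrix.diagonal (fun i => (b i : ℂ)) * Uᴴ) ⊗ₖ T) =
      ∑ i, ld ((1 : Matrix κ κ ℂ) + (b i : ℂ) • T) := by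
  have hB : (U * Matrix.diagonal (fun i => (b i : ℂ)) * Uᴴ).PosSemidef := by
    apply Matrix.PosSemidef.mul_mul_conjTranspose_same
    apply Matrix.PosSemidef.diagonal
    intro i
    show (0 : ℂ) ≤ (b i : ℂ)
    exact_mod_cast hb i
  have hM := posDef_one_kron hB hT
  have hdet : ((1 : Matrix (ι × κ) (ι × κ) ℂ) +
      (U * Matrix.diagonal (fun i => (b i : ℂ)) * Uᴴ) ⊗ₖ T).det =
      ∏ i, ((1 : Matrix κ κ ℂ) + (b i : ℂ) • T).det := by
    have e1 : (1 : Matrix (ι × κ) (ι × κ) ℂ) +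
        (U * Matrix.diagonal (fun i => (b i : ℂ)) * Uᴴ) ⊗ₖ T =
        (U ⊗ₖ (1 : Matrix κ κ ℂ)) * ((1 : Matrix (ι × κ) (ι × κ) ℂ) +
          Matrix.diagonal (fun i => (b i : ℂ)) ⊗ₖ T) * (Uᴴ ⊗ₖ (1 : Matrix κ κ ℂ)) := by
      rw [Matrix.mul_add, Matrix.add_mul, Matrix.mul_one, ← Matrix.mul_kronecker_mul,
        ← Matrix.mul_kronecker_mul, ← Matrix.mul_kronecker_mul, hU', Matrix.one_mul,
        Matrix.one_mul, Matrix.mul_one, Matrix.one_kronecker_one]
    have e2 : (U ⊗ₖ (1 : Matrix κ κ ℂ)).det * (Uᴴ ⊗ₖ (1 : Matrix κ κ ℂ)).det = 1 := by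
      rw [← Matrix.det_mul, ← Matrix.mul_kronecker_mul, hU', Matrix.one_mul,
        Matrix.one_kronecker_one, Matrix.det_one]
    have e3 : (1 : Matrix (ι × κ) (ι × κ) ℂ) + Matrix.diagonal (fun i => (b i : ℂ)) ⊗ₖ T =
        Matrix.reindex (Equiv.prodComm _ _) (Equiv.prodComm _ _)
          (Matrix.blockDiagonal fun i => (1 : Matrix κ κ ℂ) + (b i : ℂ) • T) := by
      rw [Matrix.diagonal_kronecker]
      ext p q
      obtain ⟨i, k⟩ := p
      obtain ⟨j, l⟩ := q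
      simp only [Matrix.add_apply, Matrix.reindex_apply, Matrix.submatrix_apply,
        Equiv.prodComm_symm, Equiv.prodComm_apply, Prod.swap_prod_mk,
        Matrix.blockDiagonal_apply, Matrix.smul_apply, Matrix.one_apply, Prod.mk.injEq]
      by_cases h1 : i = j <;> by_cases h2 : k = l <;> simp [h1, h2]
    rw [e1, Matrix.det_mul, Matrix.det_mul, mul_right_comm, e2, one_mul, e3,
      Matrix.det_reindex_self, Matrix.det_blockDiagonal]
  rw [ld_eq_ldet hM]
  unfold ldet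
  rw [hdet]
  have hd : ∀ i, 0 < ((1 : Matrix κ κ ℂ) + (b i : ℂ) • T).det.re ∧
      ((((1 : Matrix κ κ ℂ) + (b i : ℂ) • T).det.re : ℝ) : ℂ) =
        ((1 : Matrix κ κ ℂ) + (b i : ℂ) • T).det := fun i =>
    det_re_pos (posDef_one_smul hT (hb i))
  have e4 : ∏ i, ((1 : Matrix κ κ ℂ) + (b i : ℂ) • T).det =
      ((∏ i, ((1 : Matrix κ κ ℂ) + (b i : ℂ) • T).det.re : ℝ) : ℂ) := by
    rw [Complex.ofReal_prod]
    exact Finset.prod_congr rfl fun i _ => (hd i).2.symm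
  rw [e4, Complex.ofReal_re, Real.log_prod fun i _ => (hd i).1.ne']
  refine Finset.sum_congr rfl fun i _ => ?_
  rw [ld_eq_ldet (posDef_one_smul hT (hb i))]
  rfl

/-! ### sheets are positive -/

theorem SheetD.lower {l e β al : ℝ} {ψ : ℝ → ℝ} {m : Measure ℝ} (h : SheetD l ψ e β al m)
    {x : ℝ} (hx : 0 ≤ x) : ψ 0 + al * x ≤ ψ x := by
  have := h.fin
  rw [h.eq x hx, h.eq 0 le_rfl]
  have hae : ∀ᵐ u ∂m, 0 ≤ u := by
    rw [ae_iff]
    have : {u : ℝ | ¬ 0 ≤ u} = Iio 0 := by ext u; simp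
    rw [this]
    exact h.supp
  have h1 : ∫ u, Real.exp (-(u * x)) ∂m ≤ ∫ u, Real.exp (-(u * 0)) ∂m := by
    apply integral_mono_ae
    · refine Integrable.mono' (integrable_const (1 : ℝ)) (by fun_prop) ?_
      filter_upwards [hae] with u hu
      rw [Real.norm_eq_abs, abs_of_pos (Real.exp_pos _)]
      exact Real.exp_le_one_iff.2 (by have := mul_nonneg hu hx; linarith)
    · simp only [mul_zero, neg_zero, Real.exp_zero]
      exact integrable_const _
    · filter_upwards [hae] with u hu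
      simp only [mul_zero, neg_zero, Real.exp_zero]
      exact Real.exp_le_one_iff.2 (by have := mul_nonneg hu hx; linarith)
  linarith

theorem SheetD.pos_at {l e β al : ℝ} {ψ : ℝ → ℝ} {m : Measure ℝ} (h : SheetD l ψ e β al m)
    {x : ℝ} (hx : 0 ≤ x) : 0 < ψ x := by
  have h1 := h.lower hx
  have h2 := mul_nonneg h.al0 hx
  have h3 := h.pos
  linarith

theorem Sheet.pos_at {l e : ℝ} {ψ : ℝ → ℝ} (h : Sheet l ψ e) {x : ℝ} (hx : 0 ≤ x) :
    0 < ψ x := by
  obtain ⟨β, al, m, h⟩ := h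
  exact h.pos_at hx

theorem sheet_affine {l ρ : ℝ} (hl : 0 ≤ l) (hρ : 0 ≤ ρ) : Sheet l (fun x => 1 + ρ * x) 0 :=
  ⟨1, ρ, 0, ⟨inferInstance, by simp, by simp, hρ, fun x _ => by simp, by simp,
    by have := mul_nonneg hl hρ; linarith⟩⟩

/-! ### the log-det bound at `r = 1` -/

theorem coe_smul_mat (c : ℝ) (K : Matrix ι ι ℂ) : (c : ℂ) • K = c • K := by
  ext i j; simp

/-- `HasSheets` at `r = 1`, with real scalars -/
def HasSheets1 (R E : Matrix κ κ ℂ) (l : ℝ) : Prop :=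
  ∃ (k : ℕ) (ψ : Fin k → ℝ → ℝ) (e : Fin k → ℝ) (c : ℝ), (∀ i, Sheet l (ψ i) (e i)) ∧
    (∀ (ι : Type) [Fintype ι] [DecidableEq ι] (P K : Matrix ι ι ℂ),
      P.PosSemidef → K.PosSemidef →
      ld ((1 : Matrix (ι × κ) (ι × κ) ℂ) + ((P + l • K) ⊗ₖ R + K ⊗ₖ E)) ≤
        (∑ i, ld (cfc (ψ i) (P + l • K) + e i • K)) + c * Fintype.card ι) ∧
    (∀ p q : ℝ, 0 ≤ p → 0 ≤ q →
      ld ((1 : Matrix κ κ ℂ) + ((p + l * q) • R + q • E)) =
        (∑ i, Real.log (ψ i (p + l * q) + e i * q)) + c)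

theorem diag_comb {U : Matrix ι ι ℂ} (p k : ι → ℝ) (l : ℝ) :
    U * Matrix.diagonal (fun i => (p i : ℂ)) * Uᴴ +
      l • (U * Matrix.diagonal (fun i => (k i : ℂ)) * Uᴴ) =
      U * Matrix.diagonal (fun i => ((p i + l * k i : ℝ) : ℂ)) * Uᴴ := by
  have e : l • (U * Matrix.diagonal (fun i => (k i : ℂ)) * Uᴴ) =
      U * (l • Matrix.diagonal (fun i => (k i : ℂ))) * Uᴴ := by
    rw [Matrix.mul_smul, Matrix.smul_mul]
  rw [e, ← Matrix.add_mul, ← Matrix.mul_add]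
  congr 3
  ext i j
  by_cases hij : i = j
  · subst hij; simp
  · simp [hij]

open Pool.Agent.Lib_helper98.Renyi in
theorem diag_H {U : Matrix ι ι ℂ} (hU : Uᴴ * U = 1) (p k : ι → ℝ) (l e : ℝ) (ψ : ℝ → ℝ) :
    cfc ψ (U * Matrix.diagonal (fun i => (p i : ℂ)) * Uᴴ +
      l • (U * Matrix.diagonal (fun i => (k i : ℂ)) * Uᴴ)) +
      e • (U * Matrix.diagonal (fun i => (k i : ℂ)) * Uᴴ) =
      U * Matrix.diagonal (fun i => ((ψ (p i + l * k i) + e * k i : ℝ) : ℂ)) * Uᴴ := by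
  rw [diag_comb, cfc_conj_diagonal _ U hU, diag_comb]

/-- exactness at the centre -/
theorem centre_eq {R E : Matrix κ κ ℂ} (hR : R.PosSemidef) {l : ℝ}
    (hS : (l • R + E).PosSemidef) {k : ℕ} {ψ : Fin k → ℝ → ℝ} {e : Fin k → ℝ} {c : ℝ}
    (hsc : ∀ p q : ℝ, 0 ≤ p → 0 ≤ q →
      ld ((1 : Matrix κ κ ℂ) + ((p + l * q) • R + q • E)) =
        (∑ i, Real.log (ψ i (p + l * q) + e i * q)) + c)
    {A : Matrix ι ι ℂ} (hA : A.PosSemidef) :
    ld ((1 : Matrix (ι × κ) (ι × κ) ℂ) + ((A + l • A) ⊗ₖ R + A ⊗ₖ E)) =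
      (∑ i, ld (cfc (ψ i) (A + l • A) + e i • A)) + c * Fintype.card ι := by
  obtain ⟨U, a, hU, hU', ha, rfl⟩ :=
    Pool.Agent.Lib_helper98.Renyi.exists_spectral_nonneg hA
  set A := U * Matrix.diagonal (fun i => (a i : ℂ)) * Uᴴ with hAdef
  have hT : ((1 + l) • R + E).PosSemidef := by
    have e1 : (1 + l) • R + E = R + (l • R + E) := by module
    rw [e1]
    exact hR.add hS
  have e2 : (A + l • A) ⊗ₖ R + A ⊗ₖ E = A ⊗ₖ ((1 + l) • R + E) := by
    rw [Matrix.kronecker_add, Matrix.kronecker_smul, Matrix.add_kronecker,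
      Matrix.smul_kronecker, add_smul, one_smul]
  rw [e2, hAdef, ld_one_kron hU hU' ha hT]
  have e3 : ∀ i, ld ((1 : Matrix κ κ ℂ) + (a i : ℂ) • ((1 + l) • R + E)) =
      (∑ j, Real.log (ψ j (a i + l * a i) + e j * a i)) + c := by
    intro i
    rw [← hsc (a i) (a i) (ha i) (ha i), coe_smul_mat]
    congr 2
    module
  rw [Finset.sum_congr rfl fun i _ => e3 i, Finset.sum_add_distrib, Finset.sum_comm]
  congr 1
  · refine Finset.sum_congr rfl fun j _ => ?_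
    rw [diag_H hU, ld_conj hU]
  · simp [mul_comm]

/-- assembly of the class side from the two sheets and the Jacobi factorisation -/
theorem hasSheets1_of {R : Matrix κ κ ℂ} (hR : R.PosDef) {v w : κ → ℂ} {l : ℝ} (hl : 0 ≤ l)
    (hS : ((l : ℂ) • R + (vecMulVec v (star v) - vecMulVec w (star w))).PosSemidef)
    (hlog : ∀ (ι : Type) [Fintype ι] [DecidableEq ι] (B N : Matrix ι ι ℂ), B.PosSemidef →
      N.IsHermitian → (Mr R (vecMulVec v (star v) - vecMulVec w (star w)) 1 B N).PosDef →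
      ld (Mr R (vecMulVec v (star v) - vecMulVec w (star w)) 1 B N) ≤
      ld (((1 : ℝ) : ℂ) • (1 : Matrix (ι × κ) (ι × κ) ℂ) + B ⊗ₖ R) +
      (ld (hm (psi R v w) 1 B + N) - ld (hm (psi R v w) 1 B)) +
      (ld (hm (psi R w v) 1 B - N) - ld (hm (psi R w v) 1 B)))
    (hsc : ∀ b n : ℝ, 0 ≤ b →
      (((1 : ℝ) : ℂ) • (1 : Matrix κ κ ℂ) + (b : ℂ) • R +
        (n : ℂ) • (vecMulVec v (star v) - vecMulVec w (star w))).PosDef →
      ld (((1 : ℝ) : ℂ) • (1 : Matrix κ κ ℂ) + (b : ℂ) • R +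
        (n : ℂ) • (vecMulVec v (star v) - vecMulVec w (star w))) =
      ld (((1 : ℝ) : ℂ) • (1 : Matrix κ κ ℂ) + (b : ℂ) • R) +
      (Real.log (1 * psi R v w (b / 1) + n) - Real.log (1 * psi R v w (b / 1))) +
      (Real.log (1 * psi R w v (b / 1) - n) - Real.log (1 * psi R w v (b / 1))))
    (hjac : ∃ (c : ℝ) (m : ℕ) (ρ : Fin m → ℝ), 0 < c ∧ (∀ j, 0 ≤ ρ j) ∧ ∀ x : ℝ, 0 ≤ x →
      (((1 : Matrix κ κ ℂ) + (x : ℂ) • R).det).re * lp R v w x * lp R w v x =
        c * ∏ j, (1 + ρ j * x))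
    (hp : Sheet l (psi R v w) 1) (hm' : Sheet l (psi R w v) (-1)) :
    HasSheets1 R (vecMulVec v (star v) - vecMulVec w (star w)) l := by
  set E := vecMulVec v (star v) - vecMulVec w (star w) with hE
  obtain ⟨c, m, ρ, hc, hρ, hjac⟩ := hjac
  rw [coe_smul_mat] at hS
  have hSh : (l • R + E).IsHermitian := hS.1
  -- the scalar identity behind the Jacobi factorisation
  have hlin : ∀ b : ℝ, 0 ≤ b → ld ((1 : Matrix κ κ ℂ) + (b : ℂ) • R) =
      Real.log (psi R v w b) + Real.log (psi R w v b) + (∑ j, Real.log (1 + ρ j * b)) +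
        Real.log c := by
    intro b hb
    have h1 := hjac b hb
    have hd := det_re_pos (posDef_one_smul hR.posSemidef hb)
    have hp1 : 0 < psi R v w b := hp.pos_at hb
    have hm1 : 0 < psi R w v b := hm'.pos_at hb
    have hp2 : lp R v w b = (psi R v w b)⁻¹ := by unfold psi; rw [inv_inv]
    have hm2 : lp R w v b = (psi R w v b)⁻¹ := by unfold psi; rw [inv_inv]
    have hpos : ∀ j, 0 < 1 + ρ j * b := fun j => by
      have := mul_nonneg (hρ j) hb; linarith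
    rw [ld_eq_ldet (posDef_one_smul hR.posSemidef hb)]
    unfold ldet
    have h2 : ((1 : Matrix κ κ ℂ) + (b : ℂ) • R).det.re =
        c * (∏ j, (1 + ρ j * b)) * psi R v w b * psi R w v b := by
      rw [← h1, hp2, hm2]
      field_simp
    rw [h2, Real.log_mul (by have := Finset.prod_pos fun j (_ : j ∈ Finset.univ) => hpos j
                             positivity) hm1.ne',
      Real.log_mul (by have := Finset.prod_pos fun j (_ : j ∈ Finset.univ) => hpos j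
                       positivity) hp1.ne',
      Real.log_mul hc.ne' (Finset.prod_pos fun j _ => hpos j).ne',
      Real.log_prod fun j _ => (hpos j).ne']
    ring
  refine ⟨m + 1 + 1, Fin.cons (psi R v w) (Fin.cons (psi R w v) fun j x => 1 + ρ j * x),
    Fin.cons 1 (Fin.cons (-1) fun _ => 0), Real.log c, ?_, ?_, ?_⟩
  · intro i
    refine Fin.cases ?_ (fun i => Fin.cases ?_ (fun j => ?_) i) i
    · simpa using hp
    · simpa using hm'
    · simpa using sheet_affine hl (hρ j)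
  · intro ι _ _ P K hP hK
    have hB : (P + l • K).PosSemidef := hP.add (hK.smul hl)
    obtain ⟨U, b, hU, hU', hb, hBe⟩ :=
      Pool.Agent.Lib_helper98.Renyi.exists_spectral_nonneg hB
    have hMr : Mr R E 1 (P + l • K) K = (1 : Matrix (ι × κ) (ι × κ) ℂ) +
        ((P + l • K) ⊗ₖ R + K ⊗ₖ E) := by
      unfold Mr
      rw [Complex.ofReal_one, one_smul, add_assoc]
    have hMeq : (P + l • K) ⊗ₖ R + K ⊗ₖ E = P ⊗ₖ R + K ⊗ₖ (l • R + E) := by
      rw [Matrix.add_kronecker, Matrix.smul_kronecker, Matrix.kronecker_add,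
        Matrix.kronecker_smul]
      abel
    have hMpd : (Mr R E 1 (P + l • K) K).PosDef := by
      rw [hMr, hMeq]
      exact Matrix.PosDef.one.add_posSemidef
        ((hP.kronecker hR.posSemidef).add (hK.kronecker hS))
    have h1 := hlog ι (P + l • K) K hB hK.1 hMpd
    rw [hMr] at h1
    refine h1.trans (le_of_eq ?_)
    rw [Fin.sum_univ_succ, Fin.sum_univ_succ]
    simp only [Fin.cons_zero, Fin.cons_succ]
    have hhm : ∀ ψ : ℝ → ℝ, hm ψ 1 (P + l • K) = cfc ψ (P + l • K) := by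
      intro ψ
      unfold hm
      congr 1
      funext x
      rw [one_mul, div_one]
    have e1 : ld (((1 : ℝ) : ℂ) • (1 : Matrix (ι × κ) (ι × κ) ℂ) + (P + l • K) ⊗ₖ R) =
        ∑ i, ld ((1 : Matrix κ κ ℂ) + (b i : ℂ) • R) := by
      rw [Complex.ofReal_one, one_smul, hBe, ld_one_kron hU hU' hb hR.posSemidef]
    have e2 : ∀ ψ : ℝ → ℝ, ld (cfc ψ (P + l • K)) = ∑ i, Real.log (ψ (b i)) := by
      intro ψ
      rw [hBe, Pool.Agent.Lib_helper98.Renyi.cfc_conj_diagonal _ U hU, ld_conj hU]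
    rw [hhm, hhm, e1, e2, e2, Finset.sum_congr rfl fun i _ => hlin (b i) (hb i)]
    simp only [Finset.sum_add_distrib, zero_smul, add_zero, one_smul, neg_smul, e2,
      ← sub_eq_add_neg, Finset.sum_const, Finset.card_univ, nsmul_eq_mul]
    rw [Finset.sum_comm]
    ring
  · intro p q hp0 hq0
    have hb : 0 ≤ p + l * q := add_nonneg hp0 (mul_nonneg hl hq0)
    have hMeq : (p + l * q) • R + q • E = p • R + q • (l • R + E) := by module
    have hMpd : ((1 : Matrix κ κ ℂ) + ((p + l * q) • R + q • E)).PosDef := by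
      rw [hMeq]
      exact Matrix.PosDef.one.add_posSemidef
        ((hR.posSemidef.smul hp0).add (hS.smul hq0))
    have hform : ((1 : ℝ) : ℂ) • (1 : Matrix κ κ ℂ) + ((p + l * q : ℝ) : ℂ) • R +
        (q : ℂ) • E = (1 : Matrix κ κ ℂ) + ((p + l * q) • R + q • E) := by
      rw [Complex.ofReal_one, one_smul, coe_smul_mat, coe_smul_mat, add_assoc]
    have h1 := hsc (p + l * q) q hb (by rw [hform]; exact hMpd)
    rw [hform, Complex.ofReal_one, one_smul, hlin _ hb] at h1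
    rw [h1, Fin.sum_univ_succ, Fin.sum_univ_succ]
    simp only [Fin.cons_zero, Fin.cons_succ, div_one, one_mul, zero_mul, add_zero, neg_mul,
      ← sub_eq_add_neg]
    ring

end Pool.Agent.LDK
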