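import Pool.Agent.Lib_helper4.LDK.Top
import Pool.Agent.Lib_helper4.LDK.Dual

/-!
# Symmetric blocks

`R = U S U` with `U` a hermitian unitary and `S` of rank at most three (in any dimension): the dual
pair is flagged by `(1 ± T)/2`, `T = [[0, 1], [1, 0]]`, into two pairs of rank at most three.
-/

set_option autoImplicit false

open scoped BigOperators ComplexOrder Kronecker MatrixOrder Topology
open MeasureTheory Set Matrix Filter

namespace Pool.Agent.LDK

open Pool.Agent.RC Pool.Agent.Lib_helper98.Renyi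

variable {ι κ b : Type} [Fintype ι] [DecidableEq ι] [Fintype κ] [DecidableEq κ]
  [Fintype b] [DecidableEq b]

/-- symmetric blocks: `R = U S U`, `U` a hermitian unitary, `S` of rank at most three -/
def SymSR (κ : Type) [Fintype κ] [DecidableEq κ] (S R : Matrix κ κ ℂ) : Prop :=
  ∃ U : Matrix κ κ ℂ, Uᴴ = U ∧ U * U = 1 ∧ R = U * S * U ∧ S.rank ≤ 3

/-- the flags `(1 + e T)/2` -/
noncomputable def PT (κ : Type) [Fintype κ] [DecidableEq κ] (e : ℂ) :
    Matrix (κ ⊕ κ) (κ ⊕ κ) ℂ :=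
  (1 / 2 : ℂ) • fromBlocks (1 : Matrix κ κ ℂ) (e • 1) (e • 1) 1

theorem PT_herm {e : ℂ} (he : star e = e) : (PT κ e).IsHermitian := by
  unfold Matrix.IsHermitian PT
  rw [Matrix.conjTranspose_smul, Matrix.fromBlocks_conjTranspose, Matrix.conjTranspose_smul,
    Matrix.conjTranspose_one, he]
  congr 1
  simp

theorem PT_idem {e : ℂ} (he : e * e = 1) : PT κ e * PT κ e = PT κ e := by
  unfold PT
  rw [Matrix.smul_mul, Matrix.mul_smul, Matrix.fromBlocks_multiply, smul_smul,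
    Matrix.fromBlocks_smul, Matrix.fromBlocks_smul]
  congr 1 <;>
  · simp only [Matrix.mul_one, Matrix.mul_smul, smul_smul, he]
    module

theorem PT_sum : PT κ 1 + PT κ (-1) = 1 := by
  unfold PT
  rw [← smul_add, Matrix.fromBlocks_add, Matrix.fromBlocks_smul, ← Matrix.fromBlocks_one]
  congr 1 <;> module

/-- multiplication of a block matrix `[[M, N], [N, M]]` by the flags -/
theorem PT_mul {e : ℂ} (he : e * e = 1) (M N : Matrix κ κ ℂ) :
    PT κ e * fromBlocks M N N M =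
      fromRows (1 : Matrix κ κ ℂ) (e • (1 : Matrix κ κ ℂ)) * ((1 / 2 : ℂ) • (M + e • N)) *
        fromCols (1 : Matrix κ κ ℂ) (e • (1 : Matrix κ κ ℂ)) := by
  rw [Matrix.fromRows_mul, Matrix.fromRows_mul_fromCols]
  unfold PT
  rw [Matrix.smul_mul, Matrix.fromBlocks_multiply, Matrix.fromBlocks_smul]
  congr 1 <;>
  · simp only [Matrix.mul_one, Matrix.one_mul, Matrix.smul_mul, Matrix.mul_smul, smul_smul,
      smul_add]
    try
      match_scalars <;>
      first
      | ring1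
      | linear_combination (-1 / 2 : ℂ) * he
      | linear_combination (-e / 2 : ℂ) * he

theorem mul_PT {e : ℂ} (M N : Matrix κ κ ℂ) :
    PT κ e * fromBlocks M N N M = fromBlocks M N N M * PT κ e := by
  unfold PT
  rw [Matrix.smul_mul, Matrix.mul_smul, Matrix.fromBlocks_multiply, Matrix.fromBlocks_multiply]
  congr 2 <;>
  · simp only [Matrix.mul_one, Matrix.one_mul, Matrix.smul_mul, Matrix.mul_smul]
    try abel

theorem rank_PT_mul {e : ℂ} (he : e * e = 1) (M : Matrix κ κ ℂ) :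
    (PT κ e * fromBlocks M 0 0 M).rank ≤ M.rank := by
  rw [PT_mul he M 0, smul_zero, add_zero, Matrix.mul_assoc]
  refine (Matrix.rank_mul_le_right _ _).trans ((Matrix.rank_mul_le_left _ _).trans ?_)
  have e1 : (1 / 2 : ℂ) • M = ((1 / 2 : ℂ) • (1 : Matrix κ κ ℂ)) * M := by
    rw [Matrix.smul_mul, Matrix.one_mul]
  rw [e1]
  exact Matrix.rank_mul_le_right _ _

/-- the inequality for symmetric blocks of rank at most three -/
theorem sym_open {A D : Matrix κ κ ℂ} (h : IsPsdPair A D) (hs : SymSR κ (A + D) (A - D)) :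
    Q1Open A D := by
  obtain ⟨U, hU, hUU, hR, hr⟩ := hs
  obtain ⟨Z, hZ⟩ := DUAL.exists_factor h.add
  have hY : A - D = (Z * U)ᴴ * (Z * U) := by
    rw [hR, hZ, Matrix.conjTranspose_mul, hU]
    simp only [Matrix.mul_assoc]
  refine DUAL.Q1Open_of_dual h hY hZ ?_
  have hAd : DUAL.Ad (Z * U) Z = fromBlocks (Z * Zᴴ) 0 0 (Z * Zᴴ) := by
    rw [DUAL.Ad, Matrix.conjTranspose_mul, hU]
    have : Z * U * (U * Zᴴ) = Z * Zᴴ := by
      rw [Matrix.mul_assoc, ← Matrix.mul_assoc U U, hUU, Matrix.one_mul]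
    rw [this]
  have hDd : DUAL.Dd (Z * U) Z = fromBlocks 0 (Z * U * Zᴴ) (Z * U * Zᴴ) 0 := by
    rw [DUAL.Dd, Matrix.conjTranspose_mul, hU]
    simp only [Matrix.mul_assoc]
  have hdual := DUAL.isPsdPair_dual (Z * U) Z
  have hrG : (Z * Zᴴ).rank ≤ 3 := by
    rw [Matrix.rank_self_mul_conjTranspose, ← Matrix.rank_conjTranspose_mul_self, ← hZ]
    exact hr
  have key : ∀ e : ℂ, star e = e → e * e = 1 →
      PT κ e * DUAL.Ad (Z * U) Z = DUAL.Ad (Z * U) Z * PT κ e ∧
      PT κ e * DUAL.Dd (Z * U) Z = DUAL.Dd (Z * U) Z * PT κ e ∧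
      Good (PT κ e * DUAL.Ad (Z * U) Z) (PT κ e * DUAL.Dd (Z * U) Z) := by
    intro e h1 h2
    have c1 : PT κ e * DUAL.Ad (Z * U) Z = DUAL.Ad (Z * U) Z * PT κ e := by
      rw [hAd]; exact mul_PT _ _
    have c2 : PT κ e * DUAL.Dd (Z * U) Z = DUAL.Dd (Z * U) Z * PT κ e := by
      rw [hDd]; exact mul_PT _ _
    refine ⟨c1, c2, ?_⟩
    have hp := IsPsdPair.flag hdual (PT_herm (κ := κ) h1) (PT_idem h2) c1 c2
    have hrk : ((PT κ e * DUAL.Ad (Z * U) Z + PT κ e * DUAL.Dd (Z * U) Z) +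
        (PT κ e * DUAL.Ad (Z * U) Z - PT κ e * DUAL.Dd (Z * U) Z)).rank ≤ 3 := by
      have e1 : (PT κ e * DUAL.Ad (Z * U) Z + PT κ e * DUAL.Dd (Z * U) Z) +
          (PT κ e * DUAL.Ad (Z * U) Z - PT κ e * DUAL.Dd (Z * U) Z) =
          ((2 : ℂ) • (1 : Matrix (κ ⊕ κ) (κ ⊕ κ) ℂ)) * (PT κ e * DUAL.Ad (Z * U) Z) := by
        rw [Matrix.smul_mul, Matrix.one_mul]
        module
      rw [e1, hAd]
      exact (Matrix.rank_mul_le_right _ _).trans ((rank_PT_mul h2 _).trans hrG)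
    obtain ⟨s, t, hs, ht, hst, v, w, hvw⟩ := CLS_exists hp.add hp.sub hrk
    exact ⟨s, t, hs, ht, hst, v, w, hvw⟩
  have k1 := key 1 (star_one ℂ) (by norm_num)
  have k2 := key (-1) (by simp) (by norm_num)
  refine flag2_open genOpen pertSt hdual ⟨2, ![PT κ 1, PT κ (-1)], ?_, ?_, ?_, ?_, ?_, ?_⟩
  · intro i; fin_cases i
    · exact PT_herm (star_one ℂ)
    · exact PT_herm (by simp)
  · intro i; fin_cases i
    · exact PT_idem (by norm_num)
    · exact PT_idem (by norm_num)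
  · rw [Fin.sum_univ_two]
    exact PT_sum
  · intro i; fin_cases i
    · exact k1.1
    · exact k2.1
  · intro i; fin_cases i
    · exact k1.2.1
    · exact k2.2.1
  · intro i; fin_cases i
    · exact k1.2.2
    · exact k2.2.2

/-- invariance of the class under `(S, R) ↦ (X S X, X R X)` for `X` commuting with `U`; in
particular for `X` a power of `(S + R)/2` -/
theorem symSR_conj {S R : Matrix κ κ ℂ} (hp : ((1 / 2 : ℂ) • (S + R)).PosSemidef)
    (h : SymSR κ S R) (s : ℝ) :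
    SymSR κ (mpow ((1 / 2 : ℂ) • (S + R)) s * S * mpow ((1 / 2 : ℂ) • (S + R)) s)
      (mpow ((1 / 2 : ℂ) • (S + R)) s * R * mpow ((1 / 2 : ℂ) • (S + R)) s) := by
  obtain ⟨U, hU, hUU, hR, hr⟩ := h
  have hc : U * ((1 / 2 : ℂ) • (S + R)) = ((1 / 2 : ℂ) • (S + R)) * U := by
    rw [Matrix.mul_smul, Matrix.smul_mul, Matrix.mul_add, Matrix.add_mul, hR]
    congr 1
    have e1 : U * (U * S * U) = S * U := by
      rw [← Matrix.mul_assoc, ← Matrix.mul_assoc, hUU, Matrix.one_mul]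
    have e2 : U * S * U * U = U * S := by
      rw [Matrix.mul_assoc, hUU, Matrix.mul_one]
    rw [e1, e2, add_comm]
  have hX : U * mpow ((1 / 2 : ℂ) • (S + R)) s = mpow ((1 / 2 : ℂ) • (S + R)) s * U :=
    comm_mpow hp.1 hc s
  refine ⟨U, hU, hUU, ?_, ?_⟩
  · set X := mpow ((1 / 2 : ℂ) • (S + R)) s
    rw [hR]
    calc X * (U * S * U) * X = (X * U) * S * (U * X) := by simp only [Matrix.mul_assoc]
      _ = (U * X) * S * (X * U) := by rw [hX]
      _ = U * (X * S * X) * U := by simp only [Matrix.mul_assoc]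
  · exact (Matrix.rank_mul_le_left _ _).trans ((Matrix.rank_mul_le_right _ _).trans hr)

end Pool.Agent.LDK
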