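import Pool.Agent.Lib_helper4.LDK.Union

/-!
# LDK/LDS: the range `[2, 4]`

For `α ≥ 2` the class of `BlockMixture` does not depend on `α`.
-/

set_option autoImplicit false

open scoped BigOperators ComplexOrder Kronecker MatrixOrder Topology
open MeasureTheory Set Matrix Filter

namespace Pool.Agent.LDK

open Pool.Agent.Lib_helper98.Renyi

variable {ι κ b : Type} [Fintype ι] [DecidableEq ι] [Fintype κ] [DecidableEq κ]
  [Fintype b] [DecidableEq b]

/-- flagged mixtures: orthogonal projections `P i` summing to the identity and commuting with both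
states, such that each pair of blocks `(P i * σ 0, P i * σ 1)` is a pencil block, a symmetric block
or an obtuse block -/
def FlaggedBlocks (σ : Fin 2 → Matrix b b ℂ) : Prop :=
  ∃ (m : ℕ) (P : Fin m → Matrix b b ℂ), (∀ i, (P i).IsHermitian) ∧ (∀ i, P i * P i = P i) ∧
    ∑ i, P i = 1 ∧ (∀ i x, P i * σ x = σ x * P i) ∧
    ∀ i, PencilBlock (P i * σ 0) (P i * σ 1) ∨ SymmetricBlock (P i * σ 0) (P i * σ 1) ∨
      ObtuseBlock (P i * σ 0) (P i * σ 1)

theorem blockMixture_of_flagged {α : ℝ} (hα : 1 ≤ α) {σ : Fin 2 → Matrix b b ℂ}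
    (h : FlaggedBlocks σ) : BlockMixture α σ := by
  obtain ⟨m, P, h1, h2, h3, h4, h5⟩ := h
  refine ⟨m, P, h1, h2, h3, h4, fun i => ?_⟩
  rcases h5 i with h | h | h
  · exact Or.inl h
  · exact Or.inr (Or.inl h)
  · exact Or.inr (Or.inr ⟨hα, h⟩)

theorem flagged_of_card_le_three {σ : Fin 2 → Matrix b b ℂ} (h : ∀ x, IsDensity (σ x))
    (hb : Fintype.card b ≤ 3) : FlaggedBlocks σ := by
  obtain ⟨m, P, h1, h2, h3, h4, h5⟩ := pencil_of_card_le_three h hb
  refine ⟨m, P, h1, h2, h3, h4, fun i => Or.inl ?_⟩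
  obtain ⟨s, t, hs, ht, hst, v, w, hvw⟩ := h5 i
  refine ⟨s, t, hs, ht, hst, v, w, ?_⟩
  rw [← hvw, Matrix.mul_sub, Matrix.mul_smul, Matrix.mul_smul]

end Pool.Agent.LDK
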